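import Mathlib
import Pool.Agent.Run7.h142.TF.Defs

/-!
# Weil numbers with a half orbit whose slopes do not sum to a sum of prime divisors: definitions

`F` is a CM field of degree `2 n`.
-/

set_option autoImplicit false

namespace Pool.Agent.Run7.h479.SO

open NumberField Pool.Agent.Run7.h142.TF

/-- A group `A` of automorphisms of `ℂ` and a set `O` of complex embeddings of `F`, such that `O`
contains exactly one of each pair of complex conjugate embeddings and is an orbit of `A`, and `A`
acts on `O` through a commutative group.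

For instance `A` can be generated by one automorphism if there is a prime number that is inert in
the maximal real subfield `F⁺` and splits in `F`. If `F = E F⁺` with an imaginary quadratic field
`E`, the embeddings of `F` that extend a fixed embedding of `E` are such an orbit if the Galois
group of the normal closure of `F` over `E` contains a transitive commutative group. -/
structure HalfOrbit {F : Type} [Field F] (A : Subgroup (ℂ ≃+* ℂ)) (O : Finset (F →+* ℂ)) :
    Prop where
  half : ∀ φ, φ ∈ O ↔ ComplexEmbedding.conjugate φ ∉ O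
  stable : ∀ σ ∈ A, ∀ φ ∈ O, (σ : ℂ →+* ℂ).comp φ ∈ O
  transitive : ∀ φ ∈ O, ∀ ψ ∈ O, ∃ σ ∈ A, (σ : ℂ →+* ℂ).comp φ = ψ
  commutative : ∀ σ ∈ A, ∀ τ ∈ A, ∀ φ ∈ O,
    (σ : ℂ →+* ℂ).comp ((τ : ℂ →+* ℂ).comp φ) = (τ : ℂ →+* ℂ).comp ((σ : ℂ →+* ℂ).comp φ)

/-- The deviation `2 ord_p - a` of the slopes of `x` at a complex embedding, for an isomorphism `ν`
of the algebraic closure of `ℚ_p` with `ℂ`. -/
noncomputable def cdev {p : ℕ} [Fact p.Prime] (ν : PadicAlgCl p ≃+* ℂ) (a : ℕ) {F : Type} [Field F]
    (x : F) (φ : F →+* ℂ) : ℝ :=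
  dev p a x ((ν.symm : ℂ →+* PadicAlgCl p).comp φ)

/-- The number `k` is a sum (possibly empty, repetitions allowed) of prime divisors of `n`. -/
def IsPrimeDivisorSum (n k : ℕ) : Prop :=
  k ∈ AddSubmonoid.closure {r : ℕ | r.Prime ∧ r ∣ n}

/-- The Weil number `π` for `p ^ a` has a half orbit `O` such that

* for some isomorphism `ν` the sum of the deviations over `O` is not zero;
* for some isomorphism `ν` the deviations on `O` are `b w + c` with real numbers `b ≠ 0`, `c` and
  natural numbers `w φ` whose sum over `O` is not a sum of prime divisors of the number of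
  elements of `O`. -/
def GoodSlopes (p a : ℕ) [Fact p.Prime] {F : Type} [Field F] (π : F) : Prop :=
  ∃ (A : Subgroup (ℂ ≃+* ℂ)) (O : Finset (F →+* ℂ)), HalfOrbit A O ∧
    (∃ ν : PadicAlgCl p ≃+* ℂ, ∑ φ ∈ O, cdev ν a π φ ≠ 0) ∧
    ∃ (ν : PadicAlgCl p ≃+* ℂ) (b c : ℝ) (w : (F →+* ℂ) → ℕ), b ≠ 0 ∧
      (∀ φ ∈ O, cdev ν a π φ = b * w φ + c) ∧ ¬ IsPrimeDivisorSum O.card (∑ φ ∈ O, w φ)

/-- The fields `F i` are separated: for `i ≠ i'` some automorphism of `ℂ` acts on the complex
embeddings of each of the fields as the identity or as the complex conjugation, on those of `F i` as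
the identity and on those of `F i'` as the complex conjugation. For instance: their normal closures
are linearly disjoint; or `F i = ℚ(√(-d i)) K i` with totally real fields `K i` whose common normal
closure does not contain `√(d i d i')`, `i ≠ i'`. -/
def Separated {ι : Type} (F : ι → Type) [∀ i, Field (F i)] : Prop :=
  ∀ i i', i ≠ i' → ∃ σ : ℂ ≃+* ℂ,
    (∀ k, (∀ φ : F k →+* ℂ, (σ : ℂ →+* ℂ).comp φ = φ) ∨
      ∀ φ : F k →+* ℂ, (σ : ℂ →+* ℂ).comp φ = ComplexEmbedding.conjugate φ) ∧
    (∀ φ : F i →+* ℂ, (σ : ℂ →+* ℂ).comp φ = φ) ∧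
    ∀ φ : F i' →+* ℂ, (σ : ℂ →+* ℂ).comp φ = ComplexEmbedding.conjugate φ

end Pool.Agent.Run7.h479.SO
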