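import Mathlib
import Pool.Agent.Run7.h479.LL.Main
import Pool.Agent.Run7.h479.SO.Defs

/-!
# Translates of a vector of natural numbers whose sum is not a sum of prime divisors of the degree

`w` is a vector of natural numbers on a finite set with `n` elements, with a transitive commutative
group `H` of permutations. If the sum of the entries is not a sum of prime divisors of `n`, the
translates of `w` span all functions.
-/

namespace Pool.Agent.Run7.h479.SO

open Pool.Agent.Run7.h479.LL

noncomputable section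

/-- The case of the regular representation of a commutative group. -/
theorem add_case {B : Type*} [AddCommGroup B] [Fintype B] (u : B → ℕ)
    (hk : ¬ IsPrimeDivisorSum (Fintype.card B) (∑ b, u b)) (c : B → ℝ) (hc0 : ∑ b, c b = 0)
    (hrel : ∀ a, ∑ b, c b * (u (a + b) : ℝ) = 0) : ∀ b, c b = 0 := by
  classical
  have hcard : 0 < Fintype.card B := Fintype.card_pos
  -- the Fourier coefficients are not zero
  have hhat : ∀ ψ : AddChar B ℂ, ψ ≠ 0 → ∑ b, (u b : ℂ) * ψ b ≠ 0 := by
    intro ψ hψ h3
    apply hk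
    set n := Fintype.card B with hn
    have hmem : ∀ b ∈ (Finset.univ : Finset B), ψ b ∈ mu n := by
      intro b _
      rw [mem_mu hcard, ← AddChar.map_nsmul_eq_pow, hn, card_nsmul_eq_zero, AddChar.map_zero_eq_one]
    let w : ℂ → ℕ := fun z => ∑ b with ψ b = z, u b
    have hval : val n w = 0 := by
      rw [← h3, val, ← Finset.sum_fiberwise_of_maps_to hmem]
      refine Finset.sum_congr rfl fun z _ => ?_
      simp only [w, Nat.cast_sum, Finset.sum_mul]
      refine Finset.sum_congr rfl fun b hb => ?_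
      rw [(Finset.mem_filter.1 hb).2]
    have htot : tot n w = ∑ b, u b := by
      rw [tot, ← Finset.sum_fiberwise_of_maps_to hmem]
    rw [IsPrimeDivisorSum, ← htot]
    exact tot_mem n hcard w hval
  -- the relation for the Fourier coefficients
  have hc1 : ∀ ψ : AddChar B ℂ, ∑ b, (c b : ℂ) * ψ (-b) = 0 := by
    intro ψ
    by_cases hψ : ψ = 0
    · subst hψ
      simp only [AddChar.zero_apply, mul_one]
      exact_mod_cast hc0
    have h3 : ∑ a, ψ a * ∑ b, (c b : ℂ) * (u (a + b) : ℂ) = 0 := by
      refine Finset.sum_eq_zero fun a _ => ?_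
      have h4 := congrArg (fun x : ℝ => (x : ℂ)) (hrel a)
      push_cast at h4
      rw [h4, mul_zero]
    have h4 : ∑ a, ψ a * ∑ b, (c b : ℂ) * (u (a + b) : ℂ) =
        (∑ b, (c b : ℂ) * ψ (-b)) * ∑ a, (u a : ℂ) * ψ a := by
      rw [Finset.sum_mul]
      simp only [Finset.mul_sum]
      rw [Finset.sum_comm]
      refine Finset.sum_congr rfl fun b _ => ?_
      rw [← Equiv.sum_comp (Equiv.addRight b) (fun a => (c b : ℂ) * ψ (-b) *
        ((u a : ℂ) * ψ a))]
      refine Finset.sum_congr rfl fun a _ => ?_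
      rw [Equiv.coe_addRight]
      have h5 : ψ (a + b) * ψ (-b) = ψ a := by
        rw [← AddChar.map_add_eq_mul, add_neg_cancel_right]
      linear_combination (-((c b : ℂ) * (u (a + b) : ℂ))) * h5
    rw [h4] at h3
    exact (mul_eq_zero.1 h3).resolve_right (hhat ψ hψ)
  intro b'
  have h3 : ∑ ψ : AddChar B ℂ, ψ b' * ∑ b, (c b : ℂ) * ψ (-b) = 0 :=
    Finset.sum_eq_zero fun ψ _ => by rw [hc1 ψ, mul_zero]
  have h4 : ∑ ψ : AddChar B ℂ, ψ b' * ∑ b, (c b : ℂ) * ψ (-b) =
      (c b' : ℂ) * Fintype.card B := by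
    simp only [Finset.mul_sum]
    rw [Finset.sum_comm]
    have h5 : ∀ b, ∑ ψ : AddChar B ℂ, ψ b' * ((c b : ℂ) * ψ (-b)) =
        (c b : ℂ) * (if b' - b = 0 then (Fintype.card B : ℂ) else 0) := by
      intro b
      rw [← AddChar.sum_apply_eq_ite, Finset.mul_sum]
      refine Finset.sum_congr rfl fun ψ _ => ?_
      rw [sub_eq_add_neg, AddChar.map_add_eq_mul]
      ring
    rw [Finset.sum_congr rfl (fun b _ => h5 b), Finset.sum_eq_single b']
    · rw [if_pos (sub_self b')]
    · intro b _ hb
      rw [if_neg (sub_ne_zero.2 hb.symm), mul_zero]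
    · intro h
      exact absurd (Finset.mem_univ _) h
  rw [h4] at h3
  have h5 : (Fintype.card B : ℂ) ≠ 0 := by exact_mod_cast hcard.ne'
  exact_mod_cast (mul_eq_zero.1 h3).resolve_right h5

/-- A transitive commutative group of permutations. -/
theorem comm_case {O : Type*} [Fintype O] [Nonempty O] (Γ : Subgroup (Equiv.Perm O))
    (hcomm : ∀ σ ∈ Γ, ∀ τ ∈ Γ, σ * τ = τ * σ) (htrans : ∀ x y, ∃ σ ∈ Γ, σ x = y)
    (u : O → ℕ) (hk : ¬ IsPrimeDivisorSum (Fintype.card O) (∑ x, u x)) (c : O → ℝ)
    (hc0 : ∑ x, c x = 0)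
    (hrel : ∀ σ ∈ Γ, ∑ x, c x * (u (σ x) : ℝ) = 0) : ∀ x, c x = 0 := by
  classical
  let x0 : O := Classical.arbitrary O
  let _ : CommGroup Γ :=
    { (inferInstance : Group Γ) with
      mul_comm := fun a b => Subtype.ext (hcomm a.1 a.2 b.1 b.2) }
  let _ : Fintype (Additive Γ) := Fintype.ofFinite _
  let e : Additive Γ ≃ O := Equiv.ofBijective (fun b => (Additive.toMul b).1 x0) (by
    constructor
    · intro a b hab
      have hab' : (Additive.toMul a).1 x0 = (Additive.toMul b).1 x0 := hab
      have h3 : (Additive.toMul a) = (Additive.toMul b) := by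
        apply Subtype.ext
        ext y
        obtain ⟨σ, hσ, rfl⟩ := htrans x0 y
        have h4 := congrArg (fun τ : Equiv.Perm O => τ x0)
          (hcomm (Additive.toMul a).1 (Additive.toMul a).2 σ hσ)
        have h5 := congrArg (fun τ : Equiv.Perm O => τ x0)
          (hcomm (Additive.toMul b).1 (Additive.toMul b).2 σ hσ)
        simp only [Equiv.Perm.mul_apply] at h4 h5
        rw [h4, h5, hab']
      exact h3
    · intro y
      obtain ⟨σ, hσ, h3⟩ := htrans x0 y
      exact ⟨Additive.ofMul ⟨σ, hσ⟩, h3⟩)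
  have hcard : Fintype.card (Additive Γ) = Fintype.card O := Fintype.card_congr e
  have he : ∀ a b : Additive Γ, e (a + b) = (Additive.toMul a).1 (e b) := fun a b => rfl
  have h3 := add_case (B := Additive Γ) (fun b => u (e b))
    (by rw [hcard, Equiv.sum_comp e u]; exact hk)
    (fun b => c (e b)) (by rw [Equiv.sum_comp e c]; exact hc0) (by
      intro a
      have h4 := hrel (Additive.toMul a).1 (Additive.toMul a).2
      rw [← Equiv.sum_comp e] at h4
      rw [← h4]
      refine Finset.sum_congr rfl fun b _ => ?_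
      rw [he])
  intro x
  have h4 := h3 (e.symm x)
  rw [Equiv.apply_symm_apply] at h4
  exact h4

end

end Pool.Agent.Run7.h479.SO
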