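import Mathlib
import Pool.Agent.H925R2.Core
import Pool.Agent.Run7.h479.SO.Core

/-!
# Half orbits: relations between the translates of an odd vector
-/

namespace Pool.Agent.Run7.h479.SO

open MulAction Pool.Agent.H925R2

noncomputable section

section

variable {G Y : Type*} [Group G] [Finite G] [Fintype Y] [DecidableEq Y] [MulAction G Y]

/-- A half system `O` which is an orbit of a subgroup that acts commutatively on it. The translates
of an odd vector `e` span all odd vectors if the sum of some translate over `O` is not zero, and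
some translate is on `O` an affine function of natural numbers whose sum is not a sum of prime
divisors of the number of elements of `O`. -/
theorem single (inv : Y → Y) (hinv : ∀ x, inv (inv x) = x)
    (hG : ∀ (g : G) (x : Y), g • inv x = inv (g • x))
    (O : Finset Y) (hO : IsHalf inv O) (A : Subgroup G)
    (hA1 : ∀ g ∈ A, ∀ x ∈ O, g • x ∈ O) (hA2 : ∀ x ∈ O, ∀ y ∈ O, ∃ g ∈ A, g • x = y)
    (hA3 : ∀ g ∈ A, ∀ g' ∈ A, ∀ x ∈ O, g • g' • x = g' • g • x)
    (e : Y → ℝ) (he : ∀ x, e (inv x) = -e x) (g₁ : G) (h₁ : ∑ x ∈ O, e (g₁ • x) ≠ 0)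
    (g₂ : G) (b₀ c₀ : ℝ) (hb₀ : b₀ ≠ 0) (w : Y → ℕ) (hw : ∀ x ∈ O, e (g₂ • x) = b₀ * w x + c₀)
    (hk : ¬ IsPrimeDivisorSum O.card (∑ x ∈ O, w x))
    (c : Y → ℝ) (hc : ∀ x, c (inv x) = -c x)
    (hrel : ∀ g : G, ∑ x, c x * e (g • x) = 0) : ∀ x, c x = 0 := by
  classical
  have : Fintype A := Fintype.ofFinite A
  -- the relation on `O`
  have hrelO : ∀ g : G, ∑ x ∈ O, c x * e (g • x) = 0 := by
    intro g
    have h1 := hrel g
    rw [hO.sum_symm hinv (fun x => c x * e (g • x)) (by
      intro x
      rw [hc, hG, he]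
      ring)] at h1
    linarith
  have hcO : Fintype.card O = O.card := by rw [Fintype.card_coe]
  have hnemp : Nonempty O := by
    by_contra h
    apply h₁
    rw [not_nonempty_iff] at h
    have h2 : O = ∅ := by
      rw [Finset.eq_empty_iff_forall_notMem]
      exact fun x hx => h.elim ⟨x, hx⟩
    rw [h2, Finset.sum_empty]
  have hsumO : ∀ f : Y → ℕ, ∑ x : O, f x = ∑ x ∈ O, f x := fun f => Finset.sum_coe_sort O f
  have hsumR : ∀ f : Y → ℝ, ∑ x : O, f x = ∑ x ∈ O, f x := fun f => Finset.sum_coe_sort O f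
  let _ : MulAction A O :=
    { smul := fun h x => ⟨(h : G) • (x : Y), hA1 h h.2 x x.2⟩
      one_smul := fun x => Subtype.ext (one_smul G (x : Y))
      mul_smul := fun h h' x => Subtype.ext (mul_smul (h : G) (h' : G) (x : Y)) }
  have hsm : ∀ (h : A) (x : O), ((h • x : O) : Y) = (h : G) • (x : Y) := fun _ _ => rfl
  have htr : IsPretransitive A O := ⟨by
    intro x y
    obtain ⟨g, hg, hgx⟩ := hA2 (x : Y) x.2 (y : Y) y.2
    exact ⟨⟨g, hg⟩, Subtype.ext hgx⟩⟩
  -- the sum of `c` is zero
  have hsum : ∑ x : O, c x = 0 := by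
    let x0 : O := Classical.arbitrary O
    have hK : ∀ x : O, ∑ h : A, e (g₁ • ((h • x : O) : Y)) =
        ∑ h : A, e (g₁ • ((h • x0 : O) : Y)) := by
      intro x
      obtain ⟨g, rfl⟩ := MulAction.exists_smul_eq A x0 x
      rw [← Equiv.sum_comp (Equiv.mulRight g) (fun h : A => e (g₁ • ((h • x0 : O) : Y)))]
      refine Finset.sum_congr rfl fun h _ => ?_
      rw [Equiv.coe_mulRight, mul_smul]
    set K := ∑ h : A, e (g₁ • ((h • x0 : O) : Y)) with hKdef
    have h3 : (∑ x : O, c x) * K = 0 := by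
      have h4 : ∑ h : A, ∑ x : O, c x * e (g₁ • ((h • x : O) : Y)) = 0 := by
        refine Finset.sum_eq_zero fun h _ => ?_
        have h5 := hrelO (g₁ * h)
        rw [← hsumR] at h5
        rw [← h5]
        refine Finset.sum_congr rfl fun x _ => ?_
        rw [hsm, mul_smul]
      rw [Finset.sum_comm] at h4
      simp only [← Finset.mul_sum, hK] at h4
      rw [Finset.sum_mul]
      exact h4
    have h4 : (Fintype.card O : ℝ) * K = Fintype.card A * ∑ x ∈ O, e (g₁ • x) := by
      have h5 : ∑ x : O, ∑ h : A, e (g₁ • ((h • x : O) : Y)) = (Fintype.card O : ℝ) * K := by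
        rw [Finset.sum_congr rfl (fun x _ => hK x), Finset.sum_const, Finset.card_univ,
          nsmul_eq_mul]
      rw [← h5, Finset.sum_comm]
      have h6 : ∀ h : A, ∑ x : O, e (g₁ • ((h • x : O) : Y)) = ∑ x ∈ O, e (g₁ • x) := by
        intro h
        have h7 := Equiv.sum_comp (MulAction.toPerm h) (fun x : O => e (g₁ • (x : Y)))
        simp only [MulAction.toPerm_apply] at h7
        rw [h7, hsumR (fun x => e (g₁ • x))]
      rw [Finset.sum_congr rfl (fun h _ => h6 h), Finset.sum_const, Finset.card_univ,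
        nsmul_eq_mul]
    have h5 : K ≠ 0 := by
      intro h6
      rw [h6, mul_zero] at h4
      have h7 : (Fintype.card A : ℝ) ≠ 0 := by
        exact_mod_cast (Fintype.card_pos (α := A)).ne'
      exact h₁ ((mul_eq_zero.1 h4.symm).resolve_left h7)
    exact (mul_eq_zero.1 h3).resolve_right h5
  have hrel' : ∀ h : A, ∑ x : O, c x * (w ((h • x : O) : Y) : ℝ) = 0 := by
    intro h
    have h3 := hrelO (g₂ * h)
    rw [← hsumR] at h3
    have h4 : ∑ x : O, c x * e ((g₂ * (h : G)) • (x : Y)) =
        b₀ * ∑ x : O, c x * (w ((h • x : O) : Y) : ℝ) + c₀ * ∑ x : O, c x := by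
      rw [Finset.mul_sum, Finset.mul_sum, ← Finset.sum_add_distrib]
      refine Finset.sum_congr rfl fun x _ => ?_
      rw [mul_smul, ← hsm, hw _ (h • x).2]
      ring
    rw [h4, hsum, mul_zero, add_zero] at h3
    exact (mul_eq_zero.1 h3).resolve_left hb₀
  have hkey : ∀ x : O, c x = 0 := by
    let Γ : Subgroup (Equiv.Perm O) := (MulAction.toPermHom A O).range
    refine comm_case Γ ?_ ?_ (fun x => w x) (by rw [hsumO, hcO]; exact hk)
      (fun x => c x) hsum ?_
    · rintro σ ⟨g, rfl⟩ τ ⟨g', rfl⟩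
      ext x
      exact hA3 g g.2 g' g'.2 x x.2
    · intro x y
      obtain ⟨g, hg⟩ := MulAction.exists_smul_eq A x y
      exact ⟨MulAction.toPermHom A O g, ⟨g, rfl⟩, hg⟩
    · rintro σ ⟨g, rfl⟩
      exact hrel' g
  intro x
  by_cases hx : x ∈ O
  · exact hkey ⟨x, hx⟩
  · have h3 : inv x ∈ O := by
      by_contra h4
      exact hx ((hO x).2 h4)
    have h4 := hkey ⟨inv x, h3⟩
    have h5 := hc x
    have h6 : c (inv x) = 0 := h4
    rw [h6] at h5
    linarith

end

section

variable {ι : Type*} [Fintype ι] {G : Type*} [Group G]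
  (Y : ι → Type*) [∀ i, Fintype (Y i)] [∀ i, DecidableEq (Y i)] [∀ i, MulAction G (Y i)]
  [∀ i, Nonempty (Y i)]

/-- Separation of the members of a family by group elements which act on each set as the identity or
as the involution. -/
theorem separate (inv : ∀ i, Y i → Y i) (hinv : ∀ i x, inv i (inv i x) = x)
    (hne : ∀ i x, inv i x ≠ x)
    (hG : ∀ (g : G) (i : ι) (x : Y i), g • inv i x = inv i (g • x))
    (hind : ∀ i i', i ≠ i' → ∃ g : G,
      (∀ k, (∀ x : Y k, g • x = x) ∨ ∀ x : Y k, g • x = inv k x) ∧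
      (∀ x : Y i, g • x = x) ∧ ∀ x : Y i', g • x = inv i' x)
    (e : ∀ i, Y i → ℝ) (he : ∀ i x, e i (inv i x) = -e i x) (c : ∀ i, Y i → ℝ)
    (hrel : ∀ g : G, ∑ i, ∑ x, c i x * e i (g • x) = 0) :
    ∀ i (g : G), ∑ x, c i x * e i (g • x) = 0 := by
  classical
  let T : Subgroup G :=
    { carrier := {g | ∀ k, (∀ x : Y k, g • x = x) ∨ ∀ x : Y k, g • x = inv k x}
      mul_mem' := by
        intro a b ha hb k
        rcases ha k with h1 | h1 <;> rcases hb k with h2 | h2
        · exact Or.inl fun x => by rw [mul_smul, h2, h1]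
        · exact Or.inr fun x => by rw [mul_smul, h2, h1]
        · exact Or.inr fun x => by rw [mul_smul, h2, h1]
        · exact Or.inl fun x => by rw [mul_smul, h2, h1, hinv]
      one_mem' := fun k => Or.inl fun x => one_smul G x
      inv_mem' := by
        intro a ha k
        rcases ha k with h1 | h1
        · exact Or.inl fun x => by rw [inv_smul_eq_iff, h1]
        · exact Or.inr fun x => by rw [inv_smul_eq_iff, h1, hinv] }
  have hTne : ∀ (k : ι) (g : G), (∀ x : Y k, g • x = x) → ¬ ∀ x : Y k, g • x = inv k x := by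
    intro k g h1 h2
    obtain ⟨x⟩ : Nonempty (Y k) := inferInstance
    exact hne k x ((h2 x).symm.trans (h1 x))
  let χ : ι → T →* ℝ := fun k =>
    { toFun := fun t => if (∀ x : Y k, (t : G) • x = x) then 1 else -1
      map_one' := if_pos (fun x => one_smul G x)
      map_mul' := by
        intro a b
        rcases a.2 k with h1 | h1 <;> rcases b.2 k with h2 | h2
        · rw [if_pos h1, if_pos h2, if_pos (fun x => by rw [Subgroup.coe_mul, mul_smul, h2, h1])]
          norm_num
        · have h2' : ¬ ∀ x : Y k, (b : G) • x = x := fun h => hTne k b h h2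
          have h3 : ¬ ∀ x : Y k, ((a * b : T) : G) • x = x := fun h => hTne k _ h
            (fun x => by rw [Subgroup.coe_mul, mul_smul, h2, h1])
          rw [if_pos h1, if_neg h2', if_neg h3]
          norm_num
        · have h1' : ¬ ∀ x : Y k, (a : G) • x = x := fun h => hTne k a h h1
          have h3 : ¬ ∀ x : Y k, ((a * b : T) : G) • x = x := fun h => hTne k _ h
            (fun x => by rw [Subgroup.coe_mul, mul_smul, h2, h1])
          rw [if_pos h2, if_neg h1', if_neg h3]
          norm_num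
        · have h1' : ¬ ∀ x : Y k, (a : G) • x = x := fun h => hTne k a h h1
          have h2' : ¬ ∀ x : Y k, (b : G) • x = x := fun h => hTne k b h h2
          rw [if_neg h1', if_neg h2', if_pos (fun x => by
            rw [Subgroup.coe_mul, mul_smul, h2, h1, hinv])]
          norm_num }
  have hχ1 : ∀ k (t : T), (∀ x : Y k, (t : G) • x = x) → χ k t = 1 := fun k t h => if_pos h
  have hχ2 : ∀ k (t : T), (∀ x : Y k, (t : G) • x = inv k x) → χ k t = -1 := fun k t h =>
    if_neg (fun h' => hTne k t h' h)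
  let S : ∀ i, G → ℝ := fun i g => ∑ x, c i x * e i (g • x)
  have hS : ∀ (t : T) (i : ι) (g : G), S i (g * t) = χ i t * S i g := by
    intro t i g
    simp only [S]
    rw [Finset.mul_sum]
    refine Finset.sum_congr rfl fun x _ => ?_
    rcases t.2 i with h1 | h1
    · rw [hχ1 i t h1, mul_smul, h1]
      ring
    · rw [hχ2 i t h1, mul_smul, h1, hG, he]
      ring
  have hχ' : Function.Injective χ := by
    intro i i' h
    by_contra hne'
    obtain ⟨g, hg1, hg2, hg3⟩ := hind i i' hne'
    have h1 := DFunLike.congr_fun h ⟨g, hg1⟩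
    rw [hχ1 i ⟨g, hg1⟩ hg2, hχ2 i' ⟨g, hg1⟩ hg3] at h1
    norm_num at h1
  have hli := (linearIndependent_monoidHom T ℝ).comp χ hχ'
  rw [Fintype.linearIndependent_iff] at hli
  intro i g
  refine hli (fun i => S i g) ?_ i
  funext t
  rw [Finset.sum_apply, Pi.zero_apply, ← hrel (g * t)]
  refine Finset.sum_congr rfl fun i _ => ?_
  have h1 := hS t i g
  change S i g * χ i t = S i (g * t)
  rw [h1]
  ring

end

end

end Pool.Agent.Run7.h479.SO
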