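import Mathlib
import Pool.Agent.Run7.h142.TF.Angle
import Pool.Agent.Run7.h479.SO.Family

/-!
# Weil numbers with good slopes on half orbits have maximal angle rank
-/

set_option autoImplicit false
set_option linter.unusedSectionVars false

namespace Pool.Agent.Run7.h479.SO

open NumberField Module Polynomial Pool.Agent.H204R3.CM Pool.Agent.H194R3.CM
  Pool.Agent.H977R3.CM Pool.Agent.W527 Pool.Agent.Y1.CT Pool.Agent.Y1.TS Pool.Agent.Y137.MV
  Pool.Agent.Run7.h142.JT Pool.Agent.Run7.h142.TF MulAction Pool.Agent.H925R2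

section Lift

variable {L : Type} [Field L] [NumberField L] [IsGalois ℚ L] (j : L →+* ℂ)

/-- The automorphisms of `L` induced by the automorphisms in `A`. -/
def liftSubgroup (A : Subgroup (ℂ ≃+* ℂ)) : Subgroup (L ≃ₐ[ℚ] L) where
  carrier := {g | ∃ σ ∈ A, Lifts j σ g}
  mul_mem' := by
    rintro g g' ⟨σ, hσ, h1⟩ ⟨σ', hσ', h1'⟩
    refine ⟨σ * σ', mul_mem hσ hσ', fun x => ?_⟩
    change σ (σ' (j x)) = j (g (g' x))
    rw [h1' x, h1]
  one_mem' := by
    refine ⟨1, one_mem A, fun x => ?_⟩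
    rfl
  inv_mem' := by
    rintro g ⟨σ, hσ, h1⟩
    refine ⟨σ⁻¹, inv_mem hσ, fun x => ?_⟩
    change σ.symm (j x) = j (g.symm x)
    rw [RingEquiv.symm_apply_eq, h1, AlgEquiv.apply_symm_apply]

theorem mem_liftSubgroup {A : Subgroup (ℂ ≃+* ℂ)} {g : L ≃ₐ[ℚ] L} :
    g ∈ liftSubgroup j A ↔ ∃ σ ∈ A, Lifts j σ g := Iff.rfl

theorem comp_inj {F : Type*} [Field F] {φ ψ : F →+* L} (h : j.comp φ = j.comp ψ) : φ = ψ := by
  ext x
  exact j.injective (RingHom.congr_fun h x)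

/-- All isomorphisms `ν` differ by automorphisms of `ℂ`. -/
theorem exists_change {p : ℕ} [Fact p.Prime] (ν ν' : PadicAlgCl p ≃+* ℂ) :
    ∃ g : L ≃ₐ[ℚ] L, ∀ x : L, ν'.symm (j x) = ν.symm (j (g x)) := by
  obtain ⟨g, hg⟩ := exists_lift j (ν'.symm.trans ν)
  refine ⟨g, fun x => ?_⟩
  rw [← hg x]
  change ν'.symm (j x) = ν.symm (ν (ν'.symm (j x)))
  rw [RingEquiv.symm_apply_apply]

end Lift

/-- The relations between the translates of the slope deviations, on the embeddings into a finite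
Galois extension. -/
theorem relations_zero {p : ℕ} [Fact p.Prime] {a : ℕ} {ι : Type} [Fintype ι] {F : ι → Type}
    [∀ i, Field (F i)] [∀ i, NumberField (F i)] [∀ i, IsCMField (F i)] {π : ∀ i, F i}
    (hw : ∀ i, π i * IsCMField.complexConj (F i) (π i) = (p : F i) ^ a)
    (hsep : Separated F) (hgood : ∀ i, GoodSlopes p a (π i))
    {L : Type} [Field L] [NumberField L] [IsGalois ℚ L] (j : L →+* ℂ)
    (hj : ∀ i, ∀ ψ : F i →+* ℂ, ∃ φ : F i →+* L, j.comp φ = ψ) (ν : PadicAlgCl p ≃+* ℂ)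
    (c : ∀ i, (F i →+* L) → ℝ) (hc : ∀ i φ, c i (cbar φ) = -c i φ)
    (hrel : ∀ g : L ≃ₐ[ℚ] L, ∑ i, ∑ φ, c i φ * cdev ν a (π i) (j.comp (g • φ)) = 0) :
    ∀ i φ, c i φ = 0 := by
  classical
  have hne : ∀ i, Nonempty (F i →+* L) := by
    intro i
    obtain ⟨φ, _⟩ := hj i (Classical.arbitrary _)
    exact ⟨φ⟩
  have hww : ∀ (ν : PadicAlgCl p ≃+* ℂ) i (φ : F i →+* ℂ), cdev ν a (π i) φ = ww ν a (π i) φ := by
    intro ν i φ
    unfold cdev
    rw [dev_eq ν]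
    congr 1
    ext x
    exact ν.apply_symm_apply _
  let e : ∀ i, (F i →+* L) → ℝ := fun i φ => cdev ν a (π i) (j.comp φ)
  have he : ∀ i φ, e i (cbar φ) = -e i φ := by
    intro i φ
    simp only [e]
    rw [comp_cbar, hww, hww, ww_conj ν (hw i)]
  have hsepR := separate (G := L ≃ₐ[ℚ] L) (fun i => F i →+* L) (fun i => cbar)
    (fun i φ => cbar_cbar φ) (fun i φ => cbar_ne φ) (fun g i φ => rfl) (by
      intro i i' hii
      obtain ⟨σ, hσ1, hσ2, hσ3⟩ := hsep i i' hii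
      obtain ⟨g, hg⟩ := exists_lift j σ
      refine ⟨g, fun k => ?_, fun φ => ?_, fun φ => ?_⟩
      · rcases hσ1 k with h1 | h1
        · left
          intro φ
          apply comp_inj j
          rw [← lifts_comp j hg, h1]
        · right
          intro φ
          apply comp_inj j
          rw [← lifts_comp j hg, h1, comp_cbar]
      · apply comp_inj j
        rw [← lifts_comp j hg, hσ2]
      · apply comp_inj j
        rw [← lifts_comp j hg, hσ3, comp_cbar]) e he c hrel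
  intro i
  obtain ⟨A, O, hAO, ⟨ν₁, h₁⟩, ν₂, b₀, c₀, w, hb₀, hw₂, hk⟩ := hgood i
  -- the half orbit in `L`
  let O' : Finset (F i →+* L) := Finset.univ.filter (fun φ => j.comp φ ∈ O)
  have hO' : ∀ φ, φ ∈ O' ↔ j.comp φ ∈ O := fun φ => by
    simp only [O', Finset.mem_filter, Finset.mem_univ, true_and]
  have hmap : ∀ {M : Type} [AddCommMonoid M] (f : (F i →+* ℂ) → M),
      ∑ φ ∈ O', f (j.comp φ) = ∑ φ ∈ O, f φ := by
    intro M _ f
    refine Finset.sum_bij (fun φ _ => j.comp φ) (fun φ hφ => (hO' φ).1 hφ)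
      (fun φ _ ψ _ h => comp_inj j h) (fun ψ hψ => ?_) (fun φ _ => rfl)
    obtain ⟨φ, hφ⟩ := hj i ψ
    exact ⟨φ, (hO' φ).2 (by rw [hφ]; exact hψ), hφ⟩
  have hcard : O'.card = O.card := by
    have h1 := hmap (fun _ => 1)
    simpa using h1
  obtain ⟨g₁, hg₁⟩ := exists_change j ν ν₁
  obtain ⟨g₂, hg₂⟩ := exists_change j ν ν₂
  have hch : ∀ (ν' : PadicAlgCl p ≃+* ℂ) (g : L ≃ₐ[ℚ] L), (∀ x : L, ν'.symm (j x) = ν.symm (j (g x))) →
      ∀ φ : F i →+* L, e i (g • φ) = cdev ν' a (π i) (j.comp φ) := by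
    intro ν' g hg φ
    simp only [e, cdev]
    congr 1
    ext x
    exact (hg (φ x)).symm
  refine single (G := L ≃ₐ[ℚ] L) (Y := F i →+* L) cbar (fun φ => cbar_cbar φ) (fun g φ => rfl)
    O' ?_ (liftSubgroup j A) ?_ ?_ ?_ (e i) (he i) g₁ ?_ g₂ b₀ c₀ hb₀ (fun φ => w (j.comp φ)) ?_ ?_
    (c i) (hc i) (fun g => hsepR i g)
  · intro φ
    rw [hO', hO', hAO.half, comp_cbar]
  · rintro g ⟨σ, hσ, hg⟩ φ hφ
    rw [hO'] at hφ ⊢
    rw [← lifts_comp j hg]
    exact hAO.stable σ hσ _ hφ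
  · intro φ hφ ψ hψ
    rw [hO'] at hφ hψ
    obtain ⟨σ, hσ, h1⟩ := hAO.transitive _ hφ _ hψ
    obtain ⟨g, hg⟩ := exists_lift j σ
    refine ⟨g, ⟨σ, hσ, hg⟩, ?_⟩
    rw [lifts_comp j hg] at h1
    exact comp_inj j h1
  · rintro g ⟨σ, hσ, hg⟩ g' ⟨σ', hσ', hg'⟩ φ hφ
    rw [hO'] at hφ
    have h2 := hAO.commutative σ hσ σ' hσ' _ hφ
    rw [lifts_comp j hg', lifts_comp j hg, lifts_comp j hg, lifts_comp j hg'] at h2
    exact comp_inj j h2
  · simp only [hch ν₁ g₁ hg₁]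
    rw [hmap (fun φ => cdev ν₁ a (π i) φ)]
    exact h₁
  · intro φ hφ
    rw [hO'] at hφ
    rw [hch ν₂ g₂ hg₂, hw₂ _ hφ]
  · rw [hcard, hmap w]
    exact hk

theorem angle_of_good {p : ℕ} [Fact p.Prime] {a : ℕ} {ι : Type} [Fintype ι] {F : ι → Type}
    [∀ i, Field (F i)] [∀ i, NumberField (F i)] [∀ i, IsCMField (F i)] {π : ∀ i, F i}
    (hw : ∀ i, π i * IsCMField.complexConj (F i) (π i) = (p : F i) ^ a)
    (hsep : Separated F) (hgood : ∀ i, GoodSlopes p a (π i)) : MaximalAngleRank (p ^ a) π := by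
  classical
  obtain ⟨ν⟩ := Pool.Agent.R401.Iso.exists_iso p
  intro r n hrel
  have hp0 : ∀ k, (p : F k) ≠ 0 := fun k => Nat.cast_ne_zero.2 (Fact.out : p.Prime).ne_zero
  have hπ0 : ∀ k, π k ≠ 0 := by
    intro k h0
    have h1 := hw k
    rw [h0, zero_mul] at h1
    exact pow_ne_zero a (hp0 k) h1.symm
  let Y : Type := Σ k, (F k →+* ℂ)
  let inv : Y → Y := fun y => ⟨y.1, ComplexEmbedding.conjugate y.2⟩
  have hinv : ∀ y : Y, inv (inv y) = y := by
    rintro ⟨x, φ⟩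
    simp only [inv, conj_conj']
  let u : (ℂ ≃+* ℂ) → Y → ℝ := fun σ y => ww ν a (π y.1) ((σ : ℂ →+* ℂ).comp y.2)
  have hu : ∀ σ y, u σ (inv y) = - u σ y := by
    rintro σ ⟨x, φ⟩
    change ww ν a (π x) ((σ : ℂ →+* ℂ).comp (ComplexEmbedding.conjugate φ)) = _
    rw [conj_move, ww_conj ν (hw x)]
  -- the relation
  have hlog : ∀ σ : ℂ ≃+* ℂ, ∑ y : Y, (n y : ℝ) * u σ y = 2 * (r * a) - a * ∑ y : Y, (n y : ℝ) := by
    intro σ
    have h1 := congrArg (fun x => lg ν (σ x)) hrel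
    simp only [map_prod, map_zpow₀, lg_zpow] at h1
    rw [lg_prod _ _ _ (fun y _ => (_root_.map_ne_zero σ).2 ((_root_.map_ne_zero _).2
      (hπ0 _)))] at h1
    have h2 : lg ν (σ (((p ^ a : ℕ) : ℂ))) = -a := by
      rw [map_natCast]
      push_cast
      rw [lg_pow, lg_p]
      ring
    rw [h2] at h1
    have h3 : ∑ y : Y, (n y : ℝ) * u σ y =
        ∑ y : Y, (-(2 * ((n y : ℝ) * lg ν (σ (y.2 (π y.1))))) - a * (n y : ℝ)) := by
      refine Finset.sum_congr rfl fun y _ => ?_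
      have h4 : u σ y = -(2 * lg ν (σ (y.2 (π y.1)))) - a := by
        change 2 * (-(lg ν (σ (y.2 (π y.1))))) - (a : ℝ) = _
        ring
      rw [h4]
      ring
    rw [h3, Finset.sum_sub_distrib, Finset.sum_neg_distrib, ← Finset.mul_sum, ← Finset.mul_sum, h1]
    ring
  have hc0 : 2 * ((r : ℝ) * a) - a * ∑ y : Y, (n y : ℝ) = 0 := by
    have h1 := hlog (RingEquiv.refl ℂ)
    have h2 := hlog (starRingAut : ℂ ≃+* ℂ)
    have h3 : ∀ y : Y, u (starRingAut : ℂ ≃+* ℂ) y = - u (RingEquiv.refl ℂ) y := by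
      rintro ⟨x, φ⟩
      change ww ν a (π x) (ComplexEmbedding.conjugate φ) = - ww ν a (π x) φ
      rw [ww_conj ν (hw x)]
    rw [← h1] at h2
    simp only [h3, mul_neg, Finset.sum_neg_distrib] at h2
    linarith
  have hF : ∀ σ : ℂ ≃+* ℂ, ∑ y : Y, ((n y - n (inv y) : ℤ) : ℝ) * u σ y = 0 := by
    intro σ
    have h2 : ∑ y : Y, (n (inv y) : ℝ) * u σ y = ∑ y : Y, -((n y : ℝ) * u σ y) := by
      refine Finset.sum_nbij' inv inv (fun _ _ => Finset.mem_univ _)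
        (fun _ _ => Finset.mem_univ _) (fun y _ => hinv y) (fun y _ => hinv y) (fun y _ => ?_)
      rw [hu]
      ring
    push_cast
    simp only [sub_mul, Finset.sum_sub_distrib]
    rw [h2, Finset.sum_neg_distrib, hlog, hc0]
    ring
  obtain ⟨L, _, _, j, hj⟩ := exists_galois F
  let c : ∀ k, (F k →+* L) → ℝ := fun k φ =>
    ((n ⟨k, j.comp φ⟩ - n ⟨k, ComplexEmbedding.conjugate (j.comp φ)⟩ : ℤ) : ℝ)
  have hc : ∀ k φ, c k (cbar φ) = - c k φ := by
    intro k φ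
    simp only [c]
    rw [comp_cbar, conj_conj']
    push_cast
    ring
  have hww : ∀ i (φ : F i →+* ℂ), cdev ν a (π i) φ = ww ν a (π i) φ := by
    intro i φ
    unfold cdev
    rw [dev_eq ν]
    congr 1
    ext x
    exact ν.apply_symm_apply _
  have hzero := relations_zero hw hsep hgood j hj ν c hc (by
    intro g
    obtain ⟨σ, hσ⟩ := exists_lift' j g
    have h1 := hF σ
    rw [← h1, Fintype.sum_sigma]
    refine Finset.sum_congr rfl fun k _ => ?_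
    refine Fintype.sum_equiv (embEquiv j (hj k)) _ _ fun φ => ?_
    change c k φ * cdev ν a (π k) (j.comp (g • φ)) =
      ((n ⟨k, j.comp φ⟩ - n ⟨k, ComplexEmbedding.conjugate (j.comp φ)⟩ : ℤ) : ℝ) *
        ww ν a (π k) ((σ : ℂ →+* ℂ).comp (j.comp φ))
    rw [hww, lifts_comp j hσ])
  intro k φ
  obtain ⟨φ, rfl⟩ := hj k φ
  have h1 : ((n ⟨k, j.comp φ⟩ - n ⟨k, ComplexEmbedding.conjugate (j.comp φ)⟩ : ℤ) : ℝ) = 0 :=
    hzero k φ
  have h2 : n ⟨k, j.comp φ⟩ - n ⟨k, ComplexEmbedding.conjugate (j.comp φ)⟩ = 0 :=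
    Int.cast_eq_zero.1 h1
  exact sub_eq_zero.1 h2

end Pool.Agent.Run7.h479.SO
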