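import Mathlib
import Pool.Agent.Run7.h479.SO.Angle

/-!
# Criteria for half orbits and for sums of prime divisors
-/

set_option autoImplicit false
set_option linter.unusedSectionVars false

namespace Pool.Agent.Run7.h479.SO

open NumberField Pool.Agent.Run7.h142.TF Pool.Agent.Run7.h142.JT Pool.Agent.W527

/-- Criteria for the hypotheses.

* If the powers of an automorphism `σ` of `ℂ` act transitively on the pairs of complex conjugate
  embeddings of `F`, but do not map `φ₀` to its complex conjugate, then the images of `φ₀` are a half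
  orbit for the group generated by `σ`. By Chebotarev's density theorem there is such a `σ` if and
  only if there is a prime number that is inert in `F⁺` and split in `F`.
* A number `k > 0` less than all prime divisors of `n` is not a sum of prime divisors of `n`.
* If `r`, `s` are different primes and all prime divisors of `n` are `r` or `s`, then `x r + y s` with
  natural numbers `x`, `y` are the only sums of prime divisors of `n`; in particular `r s - r - s` is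
  not a sum of prime divisors of `n`. -/
def HalfOrbitCriteria : Prop :=
  (∀ (F : Type) [Field F] [NumberField F] [IsCMField F] (σ : ℂ ≃+* ℂ) (φ₀ : F →+* ℂ),
    (∀ ψ : F →+* ℂ, ∃ z : ℤ, ((σ ^ z : ℂ ≃+* ℂ) : ℂ →+* ℂ).comp φ₀ = ψ ∨
      ((σ ^ z : ℂ ≃+* ℂ) : ℂ →+* ℂ).comp φ₀ = ComplexEmbedding.conjugate ψ) →
    (∀ z : ℤ, ((σ ^ z : ℂ ≃+* ℂ) : ℂ →+* ℂ).comp φ₀ ≠ ComplexEmbedding.conjugate φ₀) →
      ∃ O : Finset (F →+* ℂ), HalfOrbit (Subgroup.zpowers σ) O) ∧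
  (∀ n k : ℕ, 0 < k → (∀ r : ℕ, r.Prime → r ∣ n → k < r) → ¬ IsPrimeDivisorSum n k) ∧
  ∀ n r s : ℕ, r.Prime → s.Prime → r ≠ s → (∀ t : ℕ, t.Prime → t ∣ n → t = r ∨ t = s) →
    (∀ k, IsPrimeDivisorSum n k → ∃ x y, k = x * r + y * s) ∧
      ¬ IsPrimeDivisorSum n (r * s - r - s)

theorem halfOrbit_of_cycle {F : Type} [Field F] [NumberField F] [IsCMField F] (σ : ℂ ≃+* ℂ)
    (φ₀ : F →+* ℂ)
    (h1 : ∀ ψ : F →+* ℂ, ∃ z : ℤ, ((σ ^ z : ℂ ≃+* ℂ) : ℂ →+* ℂ).comp φ₀ = ψ ∨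
      ((σ ^ z : ℂ ≃+* ℂ) : ℂ →+* ℂ).comp φ₀ = ComplexEmbedding.conjugate ψ)
    (h2 : ∀ z : ℤ, ((σ ^ z : ℂ ≃+* ℂ) : ℂ →+* ℂ).comp φ₀ ≠ ComplexEmbedding.conjugate φ₀) :
    ∃ O : Finset (F →+* ℂ), HalfOrbit (Subgroup.zpowers σ) O := by
  classical
  have hmul : ∀ (a b : ℤ) (φ : F →+* ℂ), ((σ ^ (a + b) : ℂ ≃+* ℂ) : ℂ →+* ℂ).comp φ =
      ((σ ^ a : ℂ ≃+* ℂ) : ℂ →+* ℂ).comp (((σ ^ b : ℂ ≃+* ℂ) : ℂ →+* ℂ).comp φ) := by
    intro a b φ
    rw [zpow_add]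
    rfl
  have hone : ∀ (φ : F →+* ℂ), ((σ ^ (0 : ℤ) : ℂ ≃+* ℂ) : ℂ →+* ℂ).comp φ = φ := by
    intro φ
    rw [zpow_zero]
    rfl
  refine ⟨Finset.univ.filter (fun ψ => ∃ z : ℤ, ((σ ^ z : ℂ ≃+* ℂ) : ℂ →+* ℂ).comp φ₀ = ψ),
    ?_, ?_, ?_, ?_⟩
  · intro φ
    simp only [Finset.mem_filter, Finset.mem_univ, true_and]
    constructor
    · rintro ⟨z, hz⟩ ⟨y, hy⟩
      apply h2 (-z + y)
      rw [hmul, hy, ← hz, ← conj_move, ← hmul, neg_add_cancel, hone]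
    · intro h3
      obtain ⟨z, hz | hz⟩ := h1 φ
      · exact ⟨z, hz⟩
      · exact absurd ⟨z, hz⟩ h3
  · rintro τ ⟨y, rfl⟩ φ hφ
    simp only [Finset.mem_filter, Finset.mem_univ, true_and] at hφ ⊢
    obtain ⟨z, rfl⟩ := hφ
    exact ⟨y + z, hmul y z φ₀⟩
  · intro φ hφ ψ hψ
    simp only [Finset.mem_filter, Finset.mem_univ, true_and] at hφ hψ
    obtain ⟨z, rfl⟩ := hφ
    obtain ⟨y, rfl⟩ := hψ
    refine ⟨σ ^ (y - z), ⟨y - z, rfl⟩, ?_⟩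
    rw [← hmul, sub_add_cancel]
  · rintro τ ⟨y, rfl⟩ τ' ⟨z, rfl⟩ φ _
    change ((σ ^ y : ℂ ≃+* ℂ) : ℂ →+* ℂ).comp (((σ ^ z : ℂ ≃+* ℂ) : ℂ →+* ℂ).comp φ) =
      ((σ ^ z : ℂ ≃+* ℂ) : ℂ →+* ℂ).comp (((σ ^ y : ℂ ≃+* ℂ) : ℂ →+* ℂ).comp φ)
    rw [← hmul, ← hmul, add_comm]

theorem not_sum_of_lt {n k : ℕ} (hk : 0 < k) (h : ∀ r : ℕ, r.Prime → r ∣ n → k < r) :
    ¬ IsPrimeDivisorSum n k := by
  have h1 : ∀ m, IsPrimeDivisorSum n m → m = 0 ∨ ∃ r : ℕ, r.Prime ∧ r ∣ n ∧ r ≤ m := by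
    intro m hm
    have hm' : m ∈ AddSubmonoid.closure {r : ℕ | r.Prime ∧ r ∣ n} := hm
    clear hm
    induction hm' using AddSubmonoid.closure_induction with
    | mem r hr => exact Or.inr ⟨r, hr.1, hr.2, le_rfl⟩
    | zero => exact Or.inl rfl
    | add x y _ _ hx hy =>
      rcases hx with rfl | ⟨r, h1, h2, h3⟩
      · rwa [zero_add]
      · exact Or.inr ⟨r, h1, h2, by omega⟩
  intro hs
  rcases h1 k hs with h2 | ⟨r, h3, h4, h5⟩
  · omega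
  · have := h r h3 h4
    omega

theorem sum_two {n r s : ℕ} (hn : ∀ t : ℕ, t.Prime → t ∣ n → t = r ∨ t = s) (k : ℕ)
    (hk : IsPrimeDivisorSum n k) : ∃ x y, k = x * r + y * s := by
  have hk' : k ∈ AddSubmonoid.closure {r : ℕ | r.Prime ∧ r ∣ n} := hk
  clear hk
  induction hk' using AddSubmonoid.closure_induction with
  | mem t ht =>
    rcases hn t ht.1 ht.2 with rfl | rfl
    · exact ⟨1, 0, by ring⟩
    · exact ⟨0, 1, by ring⟩
  | zero => exact ⟨0, 0, by ring⟩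
  | add x y _ _ hx hy =>
    obtain ⟨a, b, rfl⟩ := hx
    obtain ⟨a', b', rfl⟩ := hy
    exact ⟨a + a', b + b', by ring⟩

theorem halfOrbitCriteria : HalfOrbitCriteria := by
  refine ⟨fun F _ _ _ σ φ₀ h1 h2 => halfOrbit_of_cycle σ φ₀ h1 h2,
    fun n k hk h => not_sum_of_lt hk h, ?_⟩
  intro n r s hr hs hrs hn
  refine ⟨sum_two hn, fun h => ?_⟩
  obtain ⟨x, y, hxy⟩ := sum_two hn _ h
  have h1 := (frobeniusNumber_pair ((Nat.coprime_primes hr hs).2 hrs) hr.one_lt hs.one_lt).1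
  apply h1
  rw [AddSubmonoid.mem_closure_pair]
  exact ⟨x, y, by simp only [smul_eq_mul]; exact hxy.symm⟩

end Pool.Agent.Run7.h479.SO
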