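import Mathlib
import Pool.Agent.Run7.h142.TF.Main
import Pool.Agent.Run7.h479.SO.Angle

/-!
# Weil numbers with good slopes on half orbits: main lemmas
-/

set_option autoImplicit false
set_option linter.unusedSectionVars false

namespace Pool.Agent.Run7.h479.SO

open NumberField Module Polynomial IntermediateField Pool.Agent.H204R3.CM Pool.Agent.H977R3.CM
  Pool.Agent.TH170 Pool.Agent.Y1.CT Pool.Agent.Y137.MV Pool.Agent.Run7.h142.TF

/-- The property holds for all families of Weil numbers `π k` for `p ^ a` with good slopes in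
separated CM fields `E k`; `f k` is any monic polynomial whose complex roots are conjugates of
`π k`. -/
def HoldsForHalfOrbits (P : Prp) : Prop :=
  ∀ (p : ℕ) [Fact p.Prime] (a : ℕ) (κ : Type) [Fintype κ] (E : κ → Type) [∀ k, Field (E k)]
    [∀ k, NumberField (E k)] [∀ k, IsCMField (E k)] (π : ∀ k, E k) (f : κ → ℤ[X]), 0 < a →
      Separated E → (∀ k, π k * IsCMField.complexConj (E k) (π k) = (p : E k) ^ a) →
        (∀ k, GoodSlopes p a (π k)) → (∀ k, IsPolyOf (π k) (f k)) → P κ E (p ^ a) f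

/-- A property that follows from the absence of relations (and the absolute values). -/
theorem holdsForHalfOrbits {P : Prp} (hP : ∀ (I : Type) (K : I → Type) [∀ i, Field (K i)] (q : ℕ)
    (f : I → ℤ[X]), 1 < q → (∀ i (z : ℂ), aeval z (f i) = 0 → ‖z‖ ^ 2 = (q : ℝ)) →
      NoRel f q (Pool.Agent.Y1.CT.Unrelated K) → P I K q f) : HoldsForHalfOrbits P := by
  intro p _ a κ _ E _ _ _ π f ha hsep hw hgood hf
  refine hP _ _ _ _ (Nat.one_lt_pow ha.ne' (Fact.out : p.Prime).one_lt)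
    (fun k z hz => norm_root (hw k) (hf k) hz)
    ⟨fun k => (hf k).1, unrelated_one _, fun s hs ρ hρ => ?_⟩
  exact exactPair_of_angle (K := E) (π := π) (angle_of_good hw hsep hgood) hw f hf s hs ρ hρ

/-- Numbers of maximal angle rank generate their fields. -/
theorem adjoin_of_angle {ι : Type} [Fintype ι] {F : ι → Type} [∀ i, Field (F i)]
    [∀ i, NumberField (F i)] [∀ i, IsCMField (F i)] {q : ℕ} {π : ∀ i, F i} (hπ0 : ∀ i, π i ≠ 0)
    (h : MaximalAngleRank q π) (i : ι) : ℚ⟮π i⟯ = ⊤ := by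
  classical
  rw [Field.primitive_element_iff_algHom_eq_of_eval' ℚ ℂ (fun x => IsAlgClosed.splits _)]
  intro φ ψ hφψ
  change φ (π i) = ψ (π i) at hφψ
  by_contra hne
  set φ' : F i →+* ℂ := (φ : F i →+* ℂ) with hφ'
  set ψ' : F i →+* ℂ := (ψ : F i →+* ℂ) with hψ'
  have hne' : φ' ≠ ψ' := by
    intro h1
    apply hne
    ext x
    exact RingHom.congr_fun h1 x
  have hval : φ' (π i) = ψ' (π i) := hφψ
  let n : (Σ i, (F i →+* ℂ)) → ℤ := fun x =>
    (if x = ⟨i, φ'⟩ then 1 else 0) - (if x = ⟨i, ψ'⟩ then 1 else 0)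
  have hne2 : (⟨i, ψ'⟩ : Σ i, (F i →+* ℂ)) ≠ ⟨i, φ'⟩ := fun h1 =>
    hne' (eq_of_heq (Sigma.mk.inj h1).2).symm
  have hne3 : (⟨i, φ'⟩ : Σ i, (F i →+* ℂ)) ≠ ⟨i, ψ'⟩ := fun h1 => hne2 h1.symm
  have hrel : ∏ x, (x.2 (π x.1)) ^ n x = (q : ℂ) ^ (0 : ℤ) := by
    rw [zpow_zero]
    have h1 : ∀ x : Σ i, (F i →+* ℂ), (x.2 (π x.1)) ^ n x =
        (if x = ⟨i, φ'⟩ then x.2 (π x.1) else 1) * (if x = ⟨i, ψ'⟩ then (x.2 (π x.1))⁻¹ else 1) := by
      intro x
      have hx0 : x.2 (π x.1) ≠ 0 := (_root_.map_ne_zero _).2 (hπ0 _)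
      simp only [n]
      by_cases h2 : x = ⟨i, φ'⟩
      · subst h2
        simp [hne3]
      · by_cases h3 : x = ⟨i, ψ'⟩
        · subst h3
          simp [hne2]
        · simp [h2, h3]
    rw [Finset.prod_congr rfl (fun x _ => h1 x), Finset.prod_mul_distrib,
      Finset.prod_ite_eq' Finset.univ (⟨i, φ'⟩ : Σ i, (F i →+* ℂ)) (fun x => x.2 (π x.1)),
      Finset.prod_ite_eq' Finset.univ (⟨i, ψ'⟩ : Σ i, (F i →+* ℂ)) (fun x => (x.2 (π x.1))⁻¹),
      if_pos (Finset.mem_univ _), if_pos (Finset.mem_univ _)]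
    change φ' (π i) * (ψ' (π i))⁻¹ = 1
    rw [hval, mul_inv_cancel₀ ((_root_.map_ne_zero _).2 (hπ0 _))]
  have h4 := h 0 n hrel i φ'
  have hcn : ComplexEmbedding.conjugate φ' ≠ φ' := by
    intro h5
    have h6 : ComplexEmbedding.IsReal φ' := h5
    exact IsTotallyComplex.complexEmbedding_not_isReal φ' h6
  have hn1 : n ⟨i, φ'⟩ = 1 := by
    simp only [n, if_true, if_neg hne3, sub_zero]
  have hn2 : n ⟨i, ComplexEmbedding.conjugate φ'⟩ ≤ 0 := by
    have h5 : ¬ ((⟨i, ComplexEmbedding.conjugate φ'⟩ : Σ i, (F i →+* ℂ)) = ⟨i, φ'⟩) := fun h6 =>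
      hcn (eq_of_heq (Sigma.mk.inj h6).2)
    simp only [n, if_neg h5]
    split_ifs <;> norm_num
  rw [hn1] at h4
  omega

end Pool.Agent.Run7.h479.SO
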