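import Mathlib
import Pool.Agent.H204R3.GP.Neat
import Pool.Agent.Run7.h479.SO.Angle

/-!
# Weil numbers with good slopes on half orbits: the form of the starting files H204R3
-/

set_option autoImplicit false
set_option linter.unusedSectionVars false

namespace Pool.Agent.Run7.h479.SO

open NumberField Module Pool.Agent.H204R3.CM Pool.Agent.H204R3.SP Pool.Agent.H925R2
  Pool.Agent.H204R3.GP Pool.Agent.W527 Pool.Agent.Run7.h142.TF

noncomputable section

/-- The criterion. -/
theorem neat_of_good {p : ℕ} [Fact p.Prime] {a : ℕ} {ι : Type} [Fintype ι] {F : ι → Type}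
    [∀ i, Field (F i)] [∀ i, NumberField (F i)] [∀ i, IsCMField (F i)] {π : ∀ i, F i}
    {L : Type} [Field L] [NumberField L] [IsGalois ℚ L] (j : L →+* ℂ)
    (h : ∀ i, ∀ ψ : F i →+* ℂ, ∃ φ : F i →+* L, j.comp φ = ψ)
    (hw : ∀ i, π i * IsCMField.complexConj (F i) (π i) = (p : F i) ^ a)
    (hsep : Separated F) (hgood : ∀ i, GoodSlopes p a (π i)) :
    Neat p a π L := by
  classical
  obtain ⟨ν⟩ := Pool.Agent.R401.Iso.exists_iso p
  set jp : L →+* PadicAlgCl p := (ν.symm : ℂ →+* PadicAlgCl p).comp j with hjp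
  intro m M hM I hprod y
  set Q : ℝ := ‖(p : PadicAlgCl p) ^ a‖ with hQ
  have hp1 : (1 : ℝ) < p := by exact_mod_cast (Fact.out : p.Prime).one_lt
  have hlp : Real.log p ≠ 0 := (Real.log_pos hp1).ne'
  have hlogQ : Real.log Q = -(a * Real.log p) := by
    have h2 : (p : PadicAlgCl p) = ((p : ℚ_[p]) : PadicAlgCl p) := by
      rw [map_natCast]
    rw [hQ, h2, norm_pow, PadicAlgCl.norm_extends, Padic.norm_p, Real.log_pow, Real.log_inv]
    ring
  -- the relation
  let X := Σ i, (F i →+* L)
  let v : X → ℝ := fun x => 2 * Real.log ‖jp (val π x)‖ - Real.log Q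
  have hv : ∀ x : X, v x = -Real.log p * cdev ν a (π x.1) (j.comp x.2) := by
    intro x
    have h1 : cdev ν a (π x.1) (j.comp x.2) = 2 * (-Real.logb p ‖jp (val π x)‖) - a := rfl
    rw [h1, Real.logb]
    simp only [v]
    rw [hlogQ]
    field_simp
    ring
  let c0 : X → ℝ := fun y => ((Finset.univ.filter (fun l => I l = y)).card : ℝ) -
    ((Finset.univ.filter (fun l => I l = bar y)).card : ℝ)
  have hc0 : ∀ y, c0 (bar y) = -c0 y := by
    intro y
    simp only [c0, bar_bar]
    ring
  have hva : ∀ x, v (bar x) = -v x := by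
    rintro ⟨i, φ⟩
    rw [hv, hv]
    have h1 : cdev ν a (π i) (j.comp (cbar φ)) = -cdev ν a (π i) (j.comp φ) := by
      have hww : ∀ (φ : F i →+* ℂ), cdev ν a (π i) φ = ww ν a (π i) φ := by
        intro φ
        unfold cdev
        rw [dev_eq ν]
        congr 1
        ext x
        exact ν.apply_symm_apply _
      rw [comp_cbar, hww, hww, ww_conj ν (hw i)]
    change -Real.log p * cdev ν a (π i) (j.comp (cbar φ)) = _
    rw [h1]
    ring
  have hcount : ∀ E : X → ℝ,
      ∑ y, ((Finset.univ.filter (fun l => I l = y)).card : ℝ) * E y = ∑ l, E (I l) := by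
    intro E
    have h2 : ∀ y, ((Finset.univ.filter (fun l => I l = y)).card : ℝ) * E y =
        ∑ l, if I l = y then E y else 0 := by
      intro y
      rw [← Finset.sum_filter, Finset.sum_const, nsmul_eq_mul]
    rw [Finset.sum_congr rfl (fun y _ => h2 y), Finset.sum_comm]
    refine Finset.sum_congr rfl fun l _ => ?_
    rw [Finset.sum_ite_eq, if_pos (Finset.mem_univ _)]
  have hrel : ∀ σ : L ≃ₐ[ℚ] L, ∑ y, c0 y * v (σ • y) = 0 := by
    intro σ
    have h1 := log_relation jp hw hM I hprod σ
    have h2 : ∀ y : X, c0 y * v (σ • y) =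
        ((Finset.univ.filter (fun l => I l = y)).card : ℝ) * v (σ • y) -
        ((Finset.univ.filter (fun l => I l = bar y)).card : ℝ) * v (σ • y) := by
      intro y
      simp only [c0]
      ring
    rw [Finset.sum_congr rfl (fun y _ => h2 y), Finset.sum_sub_distrib,
      hcount (fun y => v (σ • y))]
    have h3 : ∑ y : X, ((Finset.univ.filter (fun l => I l = bar y)).card : ℝ) * v (σ • y) =
        ∑ y : X, ((Finset.univ.filter (fun l => I l = y)).card : ℝ) * v (σ • bar y) := by
      let B : X ≃ X := ⟨bar, bar, bar_bar, bar_bar⟩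
      rw [← Equiv.sum_comp B]
      refine Finset.sum_congr rfl fun y _ => ?_
      change ((Finset.univ.filter (fun l => I l = bar (bar y))).card : ℝ) * v (σ • bar y) = _
      rw [bar_bar]
    have h4 : ∀ l, v (σ • bar (I l)) = -v (σ • I l) := fun l => hva (σ • I l)
    have h5 : ∑ l, v (σ • I l) = 0 := h1
    rw [h3, hcount (fun y => v (σ • bar y)), Finset.sum_congr rfl (fun l _ => h4 l),
      Finset.sum_neg_distrib, h5]
    norm_num
  have h9 := relations_zero hw hsep hgood j h ν (fun i φ => c0 ⟨i, φ⟩) (fun i φ => hc0 ⟨i, φ⟩)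
    (by
      intro g
      have h1 := hrel g
      rw [Fintype.sum_sigma] at h1
      have h2 : ∑ i, ∑ φ : F i →+* L, c0 ⟨i, φ⟩ * v (g • (⟨i, φ⟩ : X)) =
          -Real.log p * ∑ i, ∑ φ : F i →+* L, c0 ⟨i, φ⟩ * cdev ν a (π i) (j.comp (g • φ)) := by
        rw [Finset.mul_sum]
        refine Finset.sum_congr rfl fun i _ => ?_
        rw [Finset.mul_sum]
        refine Finset.sum_congr rfl fun φ _ => ?_
        rw [hv]
        change _ * (-Real.log p * cdev ν a (π i) (j.comp (g • φ))) = _
        ring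
      rw [h2] at h1
      exact (mul_eq_zero.1 h1).resolve_left (neg_ne_zero.2 hlp)) y.1 y.2
  change c0 y = 0 at h9
  simp only [c0] at h9
  have h10 : ((Finset.univ.filter (fun l => I l = y)).card : ℝ) =
    ((Finset.univ.filter (fun l => I l = bar y)).card : ℝ) := by linarith
  exact_mod_cast h10

end

end Pool.Agent.Run7.h479.SO
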