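import Mathlib
import Pool.Agent.TH170.FT.MT
import Pool.Agent.TH170.FT.Tate
import Pool.Agent.TH170.FT.Hodge
import Pool.Agent.TH170.FT.CommonDefs
import Pool.Agent.Run7.h479.SO.Main
import Pool.Agent.Run7.h479.SO.Neat

/-!
# Abelian varieties with one Frobenius element with good slopes on half orbits
-/

set_option autoImplicit false
set_option linter.unusedSectionVars false

namespace Pool.Agent.Run7.h479.SO

open NumberField Module Pool.Agent.H204R3.GP Pool.Agent.H204R3.CM Pool.Agent.TH170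
  Pool.Agent.TH170.FT

variable {p : ℕ} [Fact p.Prime] {a : ℕ} {ι : Type} [Fintype ι] {F : ι → Type}
  [∀ i, Field (F i)] [∀ i, NumberField (F i)] [∀ i, IsCMField (F i)] {π : ∀ i, F i}

theorem adjoin_of_good (hweil : ∀ i, π i * IsCMField.complexConj (F i) (π i) = (p : F i) ^ a)
    (hsep : Separated F) (hgood : ∀ i, GoodSlopes p a (π i)) (i : ι) :
    IntermediateField.adjoin ℚ {π i} = ⊤ := by
  have hπ0 : ∀ i, π i ≠ 0 := by
    intro i h0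
    have h1 := hweil i
    rw [h0, zero_mul] at h1
    exact pow_ne_zero a (Nat.cast_ne_zero.2 (Fact.out : p.Prime).ne_zero) h1.symm
  exact adjoin_of_angle hπ0 (angle_of_good hweil hsep hgood) i

theorem mumfordTate_of_good (ha : 0 < a)
    (hweil : ∀ i, π i * IsCMField.complexConj (F i) (π i) = (p : F i) ^ a)
    (hsep : Separated F) (hgood : ∀ i, GoodSlopes p a (π i))
    {ℓ : ℕ} [Fact ℓ.Prime] {W T V Γ : Type} [AddCommGroup W] [Module ℚ W]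
    [AddCommGroup T] [Module ℂ T] [AddCommGroup V] [Module ℚ_[ℓ] V] [FiniteDimensional ℚ_[ℓ] V]
    [Group Γ] {per : W →+ T} {ω₀ : W →ₗ[ℚ] W →ₗ[ℚ] ℚ} {comp : W →+ V}
    {ρ : Representation ℚ_[ℓ] Γ V} {χ : Γ →* ℚ_[ℓ]} {ω : V →ₗ[ℚ_[ℓ]] V →ₗ[ℚ_[ℓ]] ℚ_[ℓ]}
    (hR : IsRealization per ω₀ comp ρ χ ω) (hF : HasFrobenius ρ χ p a π) :
    MumfordTateStrong per comp ρ χ := by
  obtain ⟨L, hL1, hL2, j, h⟩ := Pool.Agent.H204R3.CM.exists_galois F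
  exact FT.mumfordTate ha (adjoin_of_good hweil hsep hgood) hweil j h
    (neat_of_good j h hweil hsep hgood) hR hF

theorem generated_of_good (ha : 0 < a)
    (hweil : ∀ i, π i * IsCMField.complexConj (F i) (π i) = (p : F i) ^ a)
    (hsep : Separated F) (hgood : ∀ i, GoodSlopes p a (π i))
    {ℓ : ℕ} [Fact ℓ.Prime] {V Γ : Type} [AddCommGroup V] [Module ℚ_[ℓ] V]
    [FiniteDimensional ℚ_[ℓ] V] [Group Γ]
    {ρ : Representation ℚ_[ℓ] Γ V} {χ : Γ →* ℚ_[ℓ]} {ω : V →ₗ[ℚ_[ℓ]] V →ₗ[ℚ_[ℓ]] ℚ_[ℓ]}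
    (hR : IsTateModule ρ χ ω) (hF : HasFrobenius ρ χ p a π) :
    TateGeneratedInDegreeTwo ρ χ := by
  obtain ⟨L, hL1, hL2, j, h⟩ := Pool.Agent.H204R3.CM.exists_galois F
  exact generated ha (adjoin_of_good hweil hsep hgood) hweil j h
    (neat_of_good j h hweil hsep hgood) hR hF

theorem tate_of_good (ha : 0 < a)
    (hweil : ∀ i, π i * IsCMField.complexConj (F i) (π i) = (p : F i) ^ a)
    (hsep : Separated F) (hgood : ∀ i, GoodSlopes p a (π i))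
    {ℓ : ℕ} [Fact ℓ.Prime] {V Γ : Type} [AddCommGroup V] [Module ℚ_[ℓ] V]
    [FiniteDimensional ℚ_[ℓ] V] [Group Γ]
    {ρ : Representation ℚ_[ℓ] Γ V} {χ : Γ →* ℚ_[ℓ]} {ω : V →ₗ[ℚ_[ℓ]] V →ₗ[ℚ_[ℓ]] ℚ_[ℓ]}
    {D : ∀ n : ℕ, Set ((Fin n → V) [⋀^Fin 2]→ₗ[ℚ_[ℓ]] ℚ_[ℓ])}
    {C : ∀ n m : ℕ, Set ((Fin n → V) [⋀^Fin m × Fin 2]→ₗ[ℚ_[ℓ]] ℚ_[ℓ])}
    (hR : IsTateModule ρ χ ω) (hC : IsCycleClasses ρ χ D C) (hF : HasFrobenius ρ χ p a π)
    (n m : ℕ) (f : (Fin n → V) [⋀^Fin m × Fin 2]→ₗ[ℚ_[ℓ]] ℚ_[ℓ]) (hf : IsTateClass ρ χ m f) :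
    f ∈ Submodule.span ℚ_[ℓ] (C n m) := by
  have h1 := generated_of_good ha hweil hsep hgood hR hF n m f hf
  refine Submodule.span_le.2 ?_ h1
  rintro g ⟨B, hB, hg⟩
  exact wedge_mem (fun B g => hC.intersection n m B g) (fun l => hC.faltings n (B l) (hB l)) hg

end Pool.Agent.Run7.h479.SO
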