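import Mathlib
import Pool.Agent.Run7.h479.SO.Main
import Pool.Agent.Y1.CT.IndepDefs

/-!
# Weil numbers with good slopes on half orbits: numbers independent of the fields
-/

set_option autoImplicit false

namespace Pool.Agent.Run7.h479.SO

open NumberField Polynomial Pool.Agent.Y1.CT Pool.Agent.Run7.h142.TF

/-- Numbers that are independent of fields are unrelated to them. -/
theorem unrelated_of_independent {I : Type} {K : I → Type} [∀ i, Field (K i)] {ρ : ℂ}
    (h : Independent K ρ) : Unrelated K ρ := by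
  refine ⟨h.1, fun i n hn hτ => ?_⟩
  funext ψ
  obtain ⟨τ, m, hm, h1, h2⟩ := h.2 i ψ
  have h3 := hτ τ ⟨m, hm, h1⟩ ψ
  have h4 : (τ : ℂ →+* ℂ).comp ψ = ComplexEmbedding.conjugate ψ := by
    ext x
    exact h2 x
  rw [h4, hn] at h3
  have h5 : n ψ = 0 := by linarith
  exact h5

/-- A property that follows from the absence of relations with independent numbers. -/
theorem holdsForHalfOrbits_indep {P : Prp} (hP : ∀ (I : Type) (K : I → Type) [∀ i, Field (K i)]
    (q : ℕ) (f : I → ℤ[X]), 1 < q → NoRel f q (Independent K) → P I K q f) :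
    HoldsForHalfOrbits P := by
  refine holdsForHalfOrbits fun I K _ q f hq _ hR => hP I K q f hq ⟨hR.monic, ?_, ?_⟩
  · exact ⟨one_ne_zero, fun i ψ => ⟨(starRingAut : ℂ ≃+* ℂ), 1, one_pos, by
      rw [one_pow]
      exact map_one (starRingAut : ℂ ≃+* ℂ), fun x => rfl⟩⟩
  · exact fun s hs ρ hρ => hR.pair s hs ρ (unrelated_of_independent hρ)

end Pool.Agent.Run7.h479.SO
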