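import Mathlib
import Pool.Agent.W495.FM.SpreadDefs

/-!
# Function fields, `L`-functions and `K`-groups of schemes over finite fields: definitions
-/

set_option autoImplicit false

namespace Pool.Agent.Run7.h479.SO

open Pool.Agent.W495.FM Polynomial

noncomputable section

variable {Ω V : Type} [Field Ω]

/-- The non-empty open subschemes `U a` of an integral scheme `X` with the restrictions
`res : H_n(U a) → H_n(U b)` for `U b ⊆ U a`. -/
structure Opens (T : Homology Ω V) where
  I : Type
  le : I → I → Prop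
  U : I → V
  res : ∀ {a b : I}, le a b → ∀ n k : ℤ, Hom T (U a) n k (U b) n k

/-- The properties of the open subschemes of an integral scheme `X` of dimension `d`: inclusions and
restrictions are transitive; `U a` is the complement of a closed subscheme of `X`; a cycle of
dimension `k < d` has the restriction zero to an open subscheme; and the weights of `H^i(U a)` are at
most `2 i` (for smooth `U a`), so that there are no invariants in `H^i(U a, ℚ_ℓ(j))` for `i < j`. -/
structure IsOpens {T : Homology Ω V} (X : V) (d : ℤ) (G : Opens T) : Prop where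
  refl : ∀ a, G.le a a
  trans : ∀ {a b c}, G.le a b → G.le b c → G.le a c
  res_trans : ∀ {a b c} (h : G.le a b) (h' : G.le b c) (n k : ℤ) (e : T.E (G.U a) n k),
    (G.res h' n k).g ((G.res h n k).g e) = (G.res (trans h h') n k).g e
  triple : ∀ a, ∃ Z, IsTriple T Z X (G.U a)
  cycle : ∀ a k, k < d → ∀ x : T.M (G.U a) (2 * k) k, ∃ b, ∃ h : G.le a b,
    (G.res h (2 * k) k).f x = 0
  directed : ∀ {a b c}, G.le a b → G.le a c → ∃ e, G.le b e ∧ G.le c e
  weights : ∀ a (i j : ℤ), i < j → ∀ e : T.E (G.U a) (2 * d - i) (d - j),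
    T.frob _ _ _ e = e → e = 0

/-- The image of `e` in the direct limit of the groups `H_n(U b, ℚ_ℓ(k))` is zero. -/
def Opens.IsZero {T : Homology Ω V} (G : Opens T) {a : G.I} {n k : ℤ} (e : T.E (G.U a) n k) :
    Prop :=
  ∃ b, ∃ h : G.le a b, (G.res h n k).g e = 0

/-- The image of `e` in the direct limit of the groups `H_n(U b, ℚ_ℓ(k))` is invariant under the
Frobenius. -/
def Opens.IsInvariant {T : Homology Ω V} (G : Opens T) {a : G.I} {n k : ℤ}
    (e : T.E (G.U a) n k) : Prop :=
  G.IsZero (T.frob (G.U a) n k e - e)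

/-- `H` with the Frobenius `F` is the cohomology group `H^(2 j)(X, ℚ_ℓ)` of a smooth projective
variety of dimension `d` over the field with `q` elements: the group
`E X (2 d - 2 j) (d - j) = H^(2 j)(X, ℚ_ℓ(j))` is its twist. -/
def IsCohomology (T : Homology Ω V) (X : V) (q : ℕ) (d : ℤ) (j : ℕ) (H : Type) [AddCommGroup H]
    [Module Ω H] (F : H →ₗ[Ω] H) : Prop :=
  ∃ β : T.E X (2 * (d - j)) (d - j) → H, IsLin Ω β ∧ Function.Bijective β ∧
    ∀ e, F (β e) = (q : Ω) ^ j • β (T.frob _ _ _ e)

/-- The `L`-function `det (1 - q ^ (-s) F) ^ (-1)`; `τ` is an embedding of the field of coefficients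
into `ℂ`. -/
def lFunction {H : Type} [AddCommGroup H] [Module Ω H] [FiniteDimensional Ω H] (F : H →ₗ[Ω] H)
    (τ : Ω →+* ℂ) (q : ℕ) (s : ℂ) : ℂ :=
  ((F.charpoly.reverse.map τ).eval ((q : ℂ) ^ (-s)))⁻¹

end

end Pool.Agent.Run7.h479.SO
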