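import Mathlib
import Pool.Agent.TH170.GS.Defs

/-!
# Abelian varieties over finite fields with Frobenius eigenvalues in a given family: definition
-/

set_option autoImplicit false

namespace Pool.Agent.Run7.h479.SO

open Pool.Agent.W495.TA Pool.Agent.TH170

/-- Each factor of the abelian variety `Y` is supersingular, or some power of its Frobenius
endomorphism is a power of one of the given numbers `π i` (embedded in the CM field of the factor).
By the theorem of Honda and Tate this means: `Y` is isogenous, over a finite extension, to a product
of supersingular abelian varieties and simple abelian varieties whose Frobenius endomorphisms are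
powers of the `π i`. -/
def PowersOf {p : ℕ} [Fact p.Prime] {ν : PadicAlgCl p ≃+* ℂ} {ι : Type} {F : ι → Type}
    [∀ i, Field (F i)] (π : ∀ i, F i) (Y : RedAV p ν) : Prop :=
  ∀ l : Y.X.I, GS.IsSupersingular p Y.a (Y.π l) ∨
    ∃ (i : ι) (θ : F i →+* (Y.X.factor l).E) (s t : ℕ), 0 < s ∧ 0 < t ∧
      Y.π l ^ s = θ (π i) ^ t

end Pool.Agent.Run7.h479.SO
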