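import Mathlib
import Pool.Agent.TH170.GS.Rel
import Pool.Agent.Run7.h479.SO.Angle
import Pool.Agent.Run7.h479.SO.ElemDefs

/-!
# The relations between the Frobenius eigenvalues of abelian varieties in a good family
-/

set_option autoImplicit false
set_option linter.unusedSectionVars false
set_option linter.unusedVariables false

namespace Pool.Agent.Run7.h479.SO

open NumberField Finset Module Pool.Agent.W495.TA Pool.Agent.TH117 Pool.Agent.TH170
  Pool.Agent.TH170.GS Pool.Agent.Run7.h142.JT Pool.Agent.Run7.h142.TF Pool.Agent.W527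
  Pool.Agent.H194R3.CM Pool.Agent.H204R3.CM

variable {p : ℕ} [Fact p.Prime] {a : ℕ} {ι : Type} [Fintype ι] {F : ι → Type}
  [∀ i, Field (F i)] [∀ i, NumberField (F i)] [∀ i, IsCMField (F i)] {π : ∀ i, F i}

theorem trivial_good (hw : ∀ i, π i * IsCMField.complexConj (F i) (π i) = (p : F i) ^ a)
    (hsep : Separated F) (hgood : ∀ i, GoodSlopes p a (π i)) (ν : PadicAlgCl p ≃+* ℂ)
    (c : ∀ i, (F i →+* ℂ) → ℝ) (hc : ∀ i φ, c i (ComplexEmbedding.conjugate φ) = - c i φ)
    (hrel : ∀ σ : ℂ ≃+* ℂ, ∑ i, ∑ φ : F i →+* ℂ,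
      c i φ * cdev ν a (π i) ((σ : ℂ →+* ℂ).comp φ) = 0) (i : ι) (φ : F i →+* ℂ) :
    c i φ = 0 := by
  classical
  obtain ⟨L, _, _, j, hj⟩ := exists_galois F
  have hzero := relations_zero hw hsep hgood j hj ν (fun i φ => c i (j.comp φ)) (fun i φ => by
    rw [comp_cbar, hc]) (by
    intro g
    obtain ⟨σ, hσ⟩ := exists_lift' j g
    rw [← hrel σ]
    refine Finset.sum_congr rfl fun k _ => ?_
    refine Fintype.sum_equiv (embEquiv j (hj k)) _ _ fun φ => ?_
    change c k (j.comp φ) * cdev ν a (π k) (j.comp (g • φ)) =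
      c k (j.comp φ) * cdev ν a (π k) ((σ : ℂ →+* ℂ).comp (j.comp φ))
    rw [lifts_comp j hσ])
  obtain ⟨φ, rfl⟩ := hj i φ
  exact hzero i φ

theorem cdev_eq_ww (ν : PadicAlgCl p ≃+* ℂ) {F : Type} [Field F] (x : F) (φ : F →+* ℂ) :
    cdev ν a x φ = ww ν a x φ := by
  unfold cdev
  rw [dev_eq ν]
  congr 1
  ext x
  exact ν.apply_symm_apply _

theorem norm_sq {F : Type} [Field F] [NumberField F] [IsCMField F] {x : F}
    (hx : x * IsCMField.complexConj F x = (p : F) ^ a) (φ : F →+* ℂ) :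
    ‖φ x‖ ^ 2 = (p : ℝ) ^ a := by
  have h1 := congrArg φ hx
  rw [map_mul, IsCMField.complexEmbedding_complexConj, map_pow, map_natCast,
    Complex.mul_conj'] at h1
  exact_mod_cast h1

/-- All relations between the Frobenius eigenvalues of an abelian variety with Frobenius
eigenvalues in a good family are elementary. -/
theorem elementary_of_good {ν : PadicAlgCl p ≃+* ℂ}
    (hw : ∀ i, π i * IsCMField.complexConj (F i) (π i) = (p : F i) ^ a)
    (hsep : Separated F) (hgood : ∀ i, GoodSlopes p a (π i)) (ha : 0 < a) {Y : RedAV p ν}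
    (hY : PowersOf π Y) : BL.HasElementaryRelations Y := by
  classical
  intro e he
  let S : Y.X.I → Prop := fun l =>
    ∃ s : ℕ, 0 < s ∧ Y.π l ^ (2 * s) = ((p : (Y.X.factor l).E) ^ Y.a) ^ s
  have hY' : ∀ l, ¬ S l → ∃ (i : ι) (θ : F i →+* (Y.X.factor l).E) (s t : ℕ),
      0 < s ∧ 0 < t ∧ Y.π l ^ s = θ (π i) ^ t := by
    intro l hl
    exact (hY l).resolve_left hl
  choose τ θ s t hs ht hθ using hY'
  have hst : ∀ l (h : ¬ S l), s l h * Y.a = t l h * a := by
    intro l h
    have hne : Nonempty ((Y.X.factor l).E →+* ℂ) := inferInstance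
    obtain ⟨φ⟩ := hne
    have h1 := congrArg (fun x => ‖φ x‖ ^ 2) (hθ l h)
    simp only [map_pow, norm_pow] at h1
    have h2 := (Y.frob l).weil φ
    have h3 := norm_sq (hw (τ l h)) (φ.comp (θ l h))
    have h4 : ‖φ (Y.π l)‖ ^ 2 = (p : ℝ) ^ Y.a := h2
    have h5 : ‖φ (θ l h (π (τ l h)))‖ ^ 2 = (p : ℝ) ^ a := h3
    rw [← pow_mul, ← pow_mul, mul_comm (s l h), mul_comm (t l h), pow_mul, pow_mul, h4, h5,
      ← pow_mul, ← pow_mul] at h1
    have hp1 : (1 : ℝ) < p := by exact_mod_cast (Fact.out : p.Prime).one_lt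
    have h6 := pow_right_injective₀ (zero_lt_one.trans hp1) hp1.ne' h1
    rw [mul_comm (s l h), mul_comm (t l h)]
    exact h6
  let X : Type := Σ i, (F i →+* ℂ)
  let ε : X → ℝ := fun z => (Y.a / a : ℝ) * cdev ν a (π z.1) z.2
  let inv : X → X := fun z => ⟨z.1, ComplexEmbedding.conjugate z.2⟩
  let mv : (ℂ ≃+* ℂ) → X → X := fun σ z => ⟨z.1, (σ : ℂ →+* ℂ).comp z.2⟩
  have hinv : ∀ z, inv (inv z) = z := by
    rintro ⟨i, φ⟩
    simp only [inv, conj_conj']
  have hε : ∀ z σ, ε (mv σ (inv z)) = - ε (mv σ z) := by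
    rintro ⟨i, φ⟩ σ
    change (Y.a / a : ℝ) * cdev ν a (π i) ((σ : ℂ →+* ℂ).comp (ComplexEmbedding.conjugate φ)) =
      - ((Y.a / a : ℝ) * cdev ν a (π i) ((σ : ℂ →+* ℂ).comp φ))
    rw [conj_move, cdev_eq_ww, cdev_eq_ww, ww_conj ν (hw i)]
    ring
  let G : BL.Emb Y → Option X := fun v =>
    if h : S v.1 then none else some ⟨τ v.1 h, v.2.comp (θ v.1 h)⟩
  have hG1 : ∀ v, S v.1 → G v = none := fun v h => dif_pos h
  have hG2 : ∀ v (h : ¬ S v.1), G v = some ⟨τ v.1 h, v.2.comp (θ v.1 h)⟩ := fun v h => dif_neg h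
  have hGc : ∀ v z, G v = some z → G (conjE v) = some (inv z) := by
    intro v z hz
    by_cases h : S v.1
    · rw [hG1 v h] at hz
      exact absurd hz (by simp)
    · rw [hG2 v h] at hz
      rw [← Option.some.inj hz, hG2 (conjE v) h]
      rfl
  -- the slopes
  have hdev0 : ∀ v, G v = none → ∀ σ, GS.dev Y σ v = 0 := by
    intro v hv σ
    have h : S v.1 := by
      by_contra h
      rw [hG2 v h] at hv
      exact absurd hv (by simp)
    have h1 := sum_dev_of_isRel (isRel_single v h) σ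
    rw [sum_eq_single v] at h1
    · rwa [Pi.single_eq_same, Nat.cast_one, one_mul] at h1
    · intro u _ hu
      rw [Pi.single_eq_of_ne hu, Nat.cast_zero, zero_mul]
    · intro h
      exact absurd (mem_univ _) h
  have ha0 : (a : ℝ) ≠ 0 := Nat.cast_ne_zero.2 ha.ne'
  have hdev : ∀ v z, G v = some z → ∀ σ : ℂ ≃+* ℂ, GS.dev Y σ v = ε (mv σ z) := by
    intro v z hz σ
    by_cases h : S v.1
    · rw [hG1 v h] at hz
      exact absurd hz (by simp)
    · rw [hG2 v h] at hz
      rw [← Option.some.inj hz]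
      have h1 : σ (BL.eig Y v) ^ s v.1 h =
          (((σ : ℂ →+* ℂ).comp (v.2.comp (θ v.1 h))) (π (τ v.1 h))) ^ t v.1 h := by
        have h2 := congrArg (fun x => σ (v.2 x)) (hθ v.1 h)
        simp only [map_pow] at h2
        exact h2
      have h2 := congrArg (fun x => Real.logb p ‖ν.symm x‖) h1
      simp only [map_pow, norm_pow, Real.logb_pow] at h2
      have hs0 : (s v.1 h : ℝ) ≠ 0 := Nat.cast_ne_zero.2 (hs v.1 h).ne'
      have h3 : (s v.1 h : ℝ) * Y.a = t v.1 h * a := by exact_mod_cast hst v.1 h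
      apply mul_left_cancel₀ hs0
      change _ = (s v.1 h : ℝ) * ((Y.a / a : ℝ) *
        cdev ν a (π (τ v.1 h)) ((σ : ℂ →+* ℂ).comp (v.2.comp (θ v.1 h))))
      have h4 : cdev ν a (π (τ v.1 h)) ((σ : ℂ →+* ℂ).comp (v.2.comp (θ v.1 h))) =
          2 * (- Real.logb p ‖ν.symm (((σ : ℂ →+* ℂ).comp (v.2.comp (θ v.1 h)))
            (π (τ v.1 h)))‖) - a := rfl
      have h5 : (s v.1 h : ℝ) * (Y.a / a : ℝ) = t v.1 h := by
        rw [← mul_div_assoc, h3, mul_div_cancel_right₀ _ ha0]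
      rw [← mul_assoc, h5, h4]
      unfold GS.dev
      rw [mul_sub, mul_sub, h3]
      linear_combination (-2 : ℝ) * h2
  -- the antisymmetric exponents
  let c : ∀ i, (F i →+* ℂ) → ℝ := fun i φ =>
    ∑ v : BL.Emb Y, (e v : ℝ) * ((if G v = some ⟨i, φ⟩ then 1 else 0) -
      (if G v = some ⟨i, ComplexEmbedding.conjugate φ⟩ then 1 else 0))
  have hc : ∀ i φ, c i (ComplexEmbedding.conjugate φ) = - c i φ := by
    intro i φ
    simp only [c]
    rw [conj_conj', ← sum_neg_distrib]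
    exact sum_congr rfl fun v _ => by ring
  have hYa : (Y.a : ℝ) / a ≠ 0 := div_ne_zero (Nat.cast_ne_zero.2 Y.pos.ne') ha0
  have hrel' : ∀ σ : ℂ ≃+* ℂ, ∑ i, ∑ φ : F i →+* ℂ,
      c i φ * cdev ν a (π i) ((σ : ℂ →+* ℂ).comp φ) = 0 := by
    intro σ
    apply mul_left_cancel₀ hYa
    rw [mul_zero]
    have h1 : (Y.a / a : ℝ) * ∑ i, ∑ φ : F i →+* ℂ,
        c i φ * cdev ν a (π i) ((σ : ℂ →+* ℂ).comp φ) =
        ∑ z : X, ∑ v : BL.Emb Y, (e v : ℝ) * (((if G v = some z then 1 else 0) -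
          (if G v = some (inv z) then 1 else 0)) * ε (mv σ z)) := by
      rw [Fintype.sum_sigma, mul_sum]
      refine sum_congr rfl fun i _ => ?_
      rw [mul_sum]
      refine sum_congr rfl fun φ _ => ?_
      simp only [c]
      rw [sum_mul, mul_sum]
      refine sum_congr rfl fun v _ => ?_
      simp only [ε, inv, mv]
      ring
    rw [h1, sum_comm]
    have h2 : ∀ v : BL.Emb Y, ∑ z : X, (e v : ℝ) * (((if G v = some z then 1 else 0) -
          (if G v = some (inv z) then 1 else 0)) * ε (mv σ z)) =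
        2 * ((e v : ℝ) * GS.dev Y σ v) := by
      intro v
      rw [← mul_sum]
      rcases hv : G v with _ | z
      · rw [hdev0 v hv]
        simp
      · have h3 : ∀ z' : X, (((if some z = some z' then (1 : ℝ) else 0) -
            (if some z = some (inv z') then 1 else 0)) * ε (mv σ z')) =
            (if z = z' then ε (mv σ z') else 0) -
              (if inv z = z' then ε (mv σ z') else 0) := by
          intro z'
          have h4 : (z = inv z') ↔ (inv z = z') :=
            ⟨fun h => by rw [h, hinv], fun h => by rw [← h, hinv]⟩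
          simp only [Option.some_inj, h4]
          split_ifs <;> ring
        rw [sum_congr rfl fun z' _ => h3 z', sum_sub_distrib, sum_ite_eq univ z,
          sum_ite_eq univ (inv z), if_pos (mem_univ _), if_pos (mem_univ _), hdev v z hv σ, hε]
        ring
    rw [sum_congr rfl fun v _ => h2 v, ← mul_sum, sum_dev_of_isRel he, mul_zero]
  have h0 : ∀ i φ, c i φ = 0 := trivial_good hw hsep hgood ν c hc hrel'
  refine mem_of_symm _ G inv hinv ?_ ?_ ?_ ?_ (fun v => (e v : ℤ)) ?_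
  · rintro ⟨i, φ⟩ h
    exact Pool.Agent.Run7.h142.JT.conj_ne φ (eq_of_heq (Sigma.mk.inj h).2)
  · intro v hv
    apply single_mem
    by_contra h
    have h1 := hG2 v h
    rw [hv] at h1
    exact absurd h1 (by simp)
  · intro v v' z hz hz'
    refine pair_mem v v' fun σ => ?_
    rw [hdev v z hz, hdev v' (inv z) hz', hε]
    ring
  · intro v z hz
    exact ⟨conjE v, hGc v z hz⟩
  · rintro ⟨i, φ⟩
    have h1 := h0 i φ
    simp only [c, mul_sub, mul_ite, mul_one, mul_zero, sum_sub_distrib] at h1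
    have h2 := sub_eq_zero.1 h1
    have h3 : ((∑ v, (if G v = some ⟨i, φ⟩ then (e v : ℤ) else 0) : ℤ) : ℝ) =
        ((∑ v, (if G v = some (inv ⟨i, φ⟩) then (e v : ℤ) else 0) : ℤ) : ℝ) := by
      push_cast
      exact h2
    exact_mod_cast h3

end Pool.Agent.Run7.h479.SO
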