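import Mathlib
import Pool.Agent.Run7.h479.SO.ElemDefs
import Pool.Agent.W495.FM.HomDefs

/-!
# Schemes over finite fields generated by abelian varieties in a family: definitions
-/

set_option autoImplicit false

namespace Pool.Agent.Run7.h479.SO

open Pool.Agent.W495.TA Pool.Agent.W495.FM

/-- The groups of motivic and of `ℓ`-adic homology of `X` are those of an abelian variety `Y` each
factor of which is supersingular or has a power of Frobenius that is a power of a number `π i`. -/
def IsAbelianPowersOf {p : ℕ} [Fact p.Prime] (ν : PadicAlgCl p ≃+* ℂ) {ι : Type} {F : ι → Type}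
    [∀ i, Field (F i)] (π : ∀ i, F i) {Ω V : Type} [Field Ω] [CharZero Ω] (T : Homology Ω V)
    (X : V) : Prop :=
  ∃ (Y : RedAV p ν) (C : Cycles Ω Y) (D : Motivic C) (g : ℕ), PowersOf π Y ∧ IsChow C ∧
    IsMotivic D ∧ IsAbelian T X D g

end Pool.Agent.Run7.h479.SO
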