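import Mathlib
import Pool.Agent.Run7.h479.SO.Elem
import Pool.Agent.Run7.h479.SO.TBDefs
import Pool.Agent.TH117.BL.Main
import Pool.Agent.TH117.GN.Main
import Pool.Agent.TH117.GN.Wt

/-!
# The conjectures of Tate and Beilinson for schemes generated by abelian varieties in a good family
-/

set_option autoImplicit false

namespace Pool.Agent.Run7.h479.SO

open NumberField Pool.Agent.W495.TA Pool.Agent.W495.FM Pool.Agent.TH117 Pool.Agent.TH117.GN
  Pool.Agent.W547.KB

variable {p : ℕ} [Fact p.Prime] {a : ℕ} {ι : Type} [Fintype ι] {F : ι → Type}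
  [∀ i, Field (F i)] [∀ i, NumberField (F i)] [∀ i, IsCMField (F i)] {π : ∀ i, F i}
  {ν : PadicAlgCl p ≃+* ℂ}

theorem self_powers (Y : RedAV p ν) : BL.IsPowersTimesSupersingular Y Y := fun k =>
  Or.inr ⟨k, RingHom.id _, 1, 1, one_pos, one_pos, rfl, rfl⟩

/-- All Tate classes are algebraic. -/
theorem alg_of_good (ha : 0 < a)
    (hw : ∀ i, π i * IsCMField.complexConj (F i) (π i) = (p : F i) ^ a)
    (hsep : Separated F) (hgood : ∀ i, GoodSlopes p a (π i)) (Ω : Type) [Field Ω] [CharZero Ω]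
    [IsAlgClosed Ω] (Y : RedAV p ν) (hY : PowersOf π Y) (s m : ℕ)
    (f : (TM Ω Y) [⋀^Fin (2 * m)]→ₗ[Ω] Ω) (hs : 0 < s) (hf : IsTateClass Ω Y s m f) :
    Alg Ω Y (Fin (2 * m)) f :=
  BL.elementary Y (elementary_of_good hw hsep hgood ha hY) Ω Y (self_powers Y) s m hs f hf

theorem tb_good (ha : 0 < a)
    (hw : ∀ i, π i * IsCMField.complexConj (F i) (π i) = (p : F i) ^ a)
    (hsep : Separated F) (hgood : ∀ i, GoodSlopes p a (π i))
    {Ω V : Type} [Field Ω] [IsAlgClosed Ω] [CharZero Ω] {T : Homology Ω V} (hT : IsHomology T)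
    {X : V} (hX : Generated T (IsAbelianPowersOf ν π T) X) : TB T X := by
  refine tb_generated hT (fun X hX => ?_) hX
  obtain ⟨Y, C, D, g, h1, hC, hD, hX⟩ := hX
  exact tb_abelian hT hC (tateHolds_elem (elementary_of_good hw hsep hgood ha h1) (self_powers Y)
    hC) hD hX

theorem onto_good (ha : 0 < a)
    (hw : ∀ i, π i * IsCMField.complexConj (F i) (π i) = (p : F i) ^ a)
    (hsep : Separated F) (hgood : ∀ i, GoodSlopes p a (π i))
    {Ω V : Type} [Field Ω] [IsAlgClosed Ω] [CharZero Ω] {T : Homology Ω V} (hT : IsHomology T)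
    (hW : HasWeights T) {X : V} (hX : Spread T (Generated T (IsAbelianPowersOf ν π T)) X)
    (i : ℤ) : IsOnto T X i :=
  onto_spread hT hW (fun _ h1 i => ((tb_good ha hw hsep hgood hT h1).iso hT i).1) hX i

theorem iso_good (ha : 0 < a)
    (hw : ∀ i, π i * IsCMField.complexConj (F i) (π i) = (p : F i) ^ a)
    (hsep : Separated F) (hgood : ∀ i, GoodSlopes p a (π i))
    {Ω V : Type} [Field Ω] [IsAlgClosed Ω] [CharZero Ω] {T : Homology Ω V} (hT : IsHomology T)
    (hW : HasWeights T) {X : V} (hX : Generated T (IsAbelianPowersOf ν π T) X)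
    {Z U : V} {d : ℤ} (h1 : IsTriple T Z X U) (hZ : HasDimLE T Z d) {i : ℤ} (hi : d ≤ i) :
    IsIso T U i :=
  iso_opened hT hW h1 (onto_of_dim hT hZ hi) ((tb_good ha hw hsep hgood hT hX).iso hT i)

end Pool.Agent.Run7.h479.SO
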