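import Mathlib
import Pool.Agent.W495.FM.SpreadDefs

/-!
# Zeta functions of schemes over finite fields by the formula of Grothendieck: definitions
-/

set_option autoImplicit false

namespace Pool.Agent.Run7.h479.SO

open Pool.Agent.W495.FM Polynomial

noncomputable section

/-- The cohomology with compact support of a scheme over a finite field: finite-dimensional spaces
`H i = H^i_c`, which are zero for `i ≥ N`, with the operation `F i` of the geometric Frobenius. -/
structure CompactCoh (Ω : Type) [Field Ω] where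
  N : ℕ
  H : ℕ → Type
  [grp : ∀ i, AddCommGroup (H i)]
  [mod : ∀ i, Module Ω (H i)]
  [fin : ∀ i, FiniteDimensional Ω (H i)]
  F : ∀ i, H i →ₗ[Ω] H i

attribute [instance] CompactCoh.grp CompactCoh.mod CompactCoh.fin

variable {Ω V : Type} [Field Ω]

/-- `A` is the cohomology with compact support of `X`: the group `H_i(X, ℚ_ℓ(j))` is the dual of
`H^i_c(X, ℚ_ℓ(j))`; and the Frobenius is bijective. -/
structure IsCompactCoh (T : Homology Ω V) (X : V) (q : ℕ) (A : CompactCoh Ω) : Prop where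
  bij : ∀ i, Function.Injective (A.F i)
  vanish : ∀ i, A.N ≤ i → ∀ x : A.H i, x = 0
  neg : ∀ i j : ℤ, i < 0 → ∀ e : T.E X i j, e = 0
  dual : ∀ (i : ℕ) (j : ℤ), ∃ β : T.E X i j → Module.Dual Ω (A.H i), IsLin Ω β ∧
    Function.Bijective β ∧ ∀ e x, β (T.frob X i j e) (A.F i x) = (q : Ω) ^ j * β e x

/-- `det (1 - q ^ (-s) F)` on `H^i_c`, where `τ` is an embedding of the field of coefficients into
`ℂ`. -/
def eulerFactor (A : CompactCoh Ω) (τ : Ω →+* ℂ) (q i : ℕ) (s : ℂ) : ℂ :=
  ((A.F i).charpoly.reverse.map τ).eval ((q : ℂ) ^ (-s))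

/-- The zeta function of `X` by the formula of Grothendieck:
`ζ(s) = ∏ det (1 - q ^ (-s) F | H^i_c) ^ ((-1) ^ (i + 1))`. -/
def zeta (A : CompactCoh Ω) (τ : Ω →+* ℂ) (q : ℕ) (s : ℂ) : ℂ :=
  ∏ i ∈ Finset.range A.N, (eulerFactor A τ q i s) ^ ((-1 : ℤ) ^ (i + 1))

end

end Pool.Agent.Run7.h479.SO
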