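import Mathlib
import Pool.Agent.Run7.h479.SO.TB
import Pool.Agent.Run7.h479.SO.ZetaDefs

/-!
# Orders of zeta functions and ranks of higher Chow groups
-/

set_option autoImplicit false

namespace Pool.Agent.Run7.h479.SO

open Pool.Agent.W495.FM Polynomial Module

noncomputable section

/-! ### Orders of polynomials in `q ^ (-s)` -/

theorem rootMultiplicity_reverse {K : Type} [Field K] (P : K[X]) (hP : P ≠ 0) (μ : K)
    (hμ : μ ≠ 0) : P.reverse.rootMultiplicity μ⁻¹ = P.rootMultiplicity μ := by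
  obtain ⟨Q, hQ, h1⟩ := exists_eq_pow_rootMultiplicity_mul_and_not_dvd P hP μ
  set m := P.rootMultiplicity μ with hm
  have hQ0 : Q ≠ 0 := by
    rintro rfl
    exact h1 (dvd_zero _)
  have hQμ : Q.eval μ ≠ 0 := fun h => h1 (dvd_iff_isRoot.2 h)
  have e1 : ((X - C μ) ^ m : K[X]).reverse = (C (-μ) * (X - C μ⁻¹)) ^ m := by
    have e0 : (X - C μ : K[X]).reverse = C (-μ) * (X - C μ⁻¹) := by
      have : (X - C μ : K[X]).reverse = 1 - C μ * X := by
        have h2 : (X - C μ : K[X]) = X + C (-μ) := by rw [C_neg, sub_eq_add_neg]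
        have h3 : (X : K[X]).reverse = 1 := by
          have := reverse_mul_X (1 : K[X])
          rw [one_mul] at this
          rw [this, ← C_1, reverse_C]
        rw [h2, reverse_add_C, h3, natDegree_X, pow_one, C_neg, neg_mul, sub_eq_add_neg]
      rw [this, mul_sub, ← C_mul, neg_mul, mul_inv_cancel₀ hμ]
      simp [sub_eq_add_neg, add_comm]
    clear hQ hm
    induction m with
    | zero =>
      rw [pow_zero, pow_zero, ← C_1, reverse_C]
    | succ k ih => rw [pow_succ, reverse_mul_of_domain, ih, e0, pow_succ]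
  have e2 : P.reverse = (X - C μ⁻¹) ^ m * (C ((-μ) ^ m) * Q.reverse) := by
    rw [hQ, reverse_mul_of_domain, e1, mul_pow, ← C_pow]
    ring
  have hrev : Q.reverse.eval μ⁻¹ ≠ 0 := by
    have : Invertible μ := invertibleOfNonzero hμ
    intro h
    refine hQμ ?_
    have := (eval₂_reverse_eq_zero_iff (RingHom.id K) μ Q).1
    rw [invOf_eq_inv] at this
    simpa [eval₂_id] using this (by simpa [eval₂_id] using h)
  have hne : (X - C μ⁻¹) ^ m * (C ((-μ) ^ m) * Q.reverse) ≠ 0 := by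
    rw [← e2]
    simpa using hP
  rw [e2, rootMultiplicity_mul hne, rootMultiplicity_X_sub_C_pow, rootMultiplicity_eq_zero, add_zero]
  rw [IsRoot.def, eval_mul, eval_C]
  exact mul_ne_zero (pow_ne_zero _ (neg_ne_zero.2 hμ)) hrev

theorem order_eval (P : ℂ[X]) (hP : P ≠ 0) (z : ℂ) :
    meromorphicOrderAt (fun t => P.eval t) z = (P.rootMultiplicity z : ℤ) := by
  have hmer : MeromorphicAt (fun t => P.eval t) z := (AnalyticOnNhd.eval_polynomial P z trivial).meromorphicAt
  rw [meromorphicOrderAt_eq_int_iff hmer]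
  obtain ⟨Q, hQ, h1⟩ := exists_eq_pow_rootMultiplicity_mul_and_not_dvd P hP z
  refine ⟨fun t => Q.eval t, AnalyticOnNhd.eval_polynomial Q z trivial, fun h => h1 (dvd_iff_isRoot.2 h), ?_⟩
  refine Filter.Eventually.of_forall fun t => ?_
  rw [zpow_natCast, smul_eq_mul]
  conv_lhs => rw [hQ]
  simp

theorem order_exp (P : ℂ[X]) (hP : P ≠ 0) (q : ℕ) (hq : 1 < q) (s₀ : ℂ) :
    MeromorphicAt (fun s : ℂ => P.eval ((q : ℂ) ^ (-s))) s₀ ∧
    meromorphicOrderAt (fun s : ℂ => P.eval ((q : ℂ) ^ (-s))) s₀ =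
      (P.rootMultiplicity ((q : ℂ) ^ (-s₀)) : ℤ) := by
  have hq0 : (q : ℂ) ≠ 0 := by exact_mod_cast (by omega : q ≠ 0)
  have hlog : Complex.log (q : ℂ) ≠ 0 := by
    rw [← Complex.ofReal_natCast, ← Complex.ofReal_log (by positivity)]
    exact_mod_cast (Real.log_pos (by exact_mod_cast hq)).ne'
  have hd : ∀ s : ℂ, HasDerivAt (fun s : ℂ => (q : ℂ) ^ (-s))
      ((q : ℂ) ^ (-s) * Complex.log q * -1) s := fun s =>
    (hasDerivAt_neg s).const_cpow (Or.inl hq0)
  have hg : AnalyticAt ℂ (fun s : ℂ => (q : ℂ) ^ (-s)) s₀ := by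
    have : Differentiable ℂ (fun s : ℂ => (q : ℂ) ^ (-s)) := fun s => (hd s).differentiableAt
    exact this.analyticAt s₀
  have hg' : deriv (fun s : ℂ => (q : ℂ) ^ (-s)) s₀ ≠ 0 := by
    rw [(hd s₀).deriv]
    exact mul_ne_zero (mul_ne_zero ((Complex.cpow_ne_zero_iff).2 (Or.inl hq0)) hlog) (by norm_num)
  refine ⟨?_, ?_⟩
  · exact ((AnalyticOnNhd.eval_polynomial P _ trivial).comp hg).meromorphicAt
  · have := meromorphicOrderAt_comp_of_deriv_ne_zero (f := fun t : ℂ => P.eval t) hg hg'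
    rw [order_eval P hP] at this
    exact this

/-! ### The multiplicity of the eigenvalue -/

theorem finrank_dual_gen {Ω H : Type} [Field Ω] [AddCommGroup H] [Module Ω H]
    [FiniteDimensional Ω H] (F : Module.End Ω H) (μ : Ω) :
    finrank Ω (Module.End.maxGenEigenspace (F.dualMap : Module.End Ω (Module.Dual Ω H)) μ) =
      F.charpoly.rootMultiplicity μ := by
  rw [LinearMap.finrank_maxGenEigenspace_eq]
  congr 1
  classical
  let b := Module.finBasis Ω H
  rw [← LinearMap.charpoly_toMatrix F b, ← LinearMap.charpoly_toMatrix F.dualMap b.dualBasis,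
    LinearMap.dualMap_def, LinearMap.toMatrix_transpose, Matrix.charpoly_transpose]

theorem mem_gen_iff {Ω A : Type} [Field Ω] [AddCommGroup A] [Module Ω A]
    (ψ G : Module.End Ω A) (c : Ω) (h : ∀ x, G (ψ x) = c • x)
    (hG : Function.Bijective G) : Module.End.maxGenEigenspace ψ 1 = Module.End.maxGenEigenspace G c := by
  have h' : ∀ x, ψ (G x) = c • x := fun x => by
    refine hG.1 ?_
    rw [h, map_smul]
  have hcomm : Commute G (ψ - 1) := by
    ext x
    simp [h, h', mul_sub, sub_mul]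
  have e : (G - c • 1 : Module.End Ω A) = (-1 : Ω) • (G * (ψ - 1)) := by
    ext x
    simp [mul_sub, h]
  have hpow : ∀ (k : ℕ) x, ((G - c • 1) ^ k) x = ((-1 : Ω) ^ k) • (G ^ k) (((ψ - 1) ^ k) x) := by
    intro k x
    rw [e, _root_.smul_pow, hcomm.mul_pow, LinearMap.smul_apply, Module.End.mul_apply]
  have hGk : ∀ k : ℕ, Function.Injective (G ^ k) := by
    intro k
    rw [Module.End.coe_pow]
    exact hG.1.iterate k
  ext x
  rw [Module.End.mem_maxGenEigenspace, Module.End.mem_maxGenEigenspace]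
  refine exists_congr fun k => ?_
  rw [hpow k x, smul_eq_zero, or_iff_right (pow_ne_zero _ (by norm_num)),
    map_eq_zero_iff _ (hGk k), one_smul]

theorem finrank_gen_eq {Ω V : Type} [Field Ω] [CharZero Ω] {T : Homology Ω V} (hT : IsHomology T)
    {X : V} {q : ℕ} {A : CompactCoh Ω} (hA : IsCompactCoh T X q A) (i : ℕ) (j : ℤ) :
    finrank Ω (Module.End.maxGenEigenspace (node T hT X i j).φ 1) =
      (A.F i).charpoly.rootMultiplicity ((q : Ω) ^ j) := by
  obtain ⟨β, ⟨β', hβ'⟩, hb, hβ⟩ := hA.dual i j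
  have hb' : Function.Bijective β' := by
    have : β = β' := funext hβ'
    rwa [this] at hb
  let b : (node T hT X i j).E ≃ₗ[Ω] Module.Dual Ω (A.H i) := LinearEquiv.ofBijective β' hb'
  have hF : Function.Bijective (A.F i) :=
    ⟨hA.bij i, LinearMap.injective_iff_surjective.1 (hA.bij i)⟩
  have hG : Function.Bijective ((A.F i).dualMap) := by
    have h1 : Function.Injective ((A.F i).dualMap) :=
      LinearMap.dualMap_injective_iff.2 hF.2
    exact ⟨h1, LinearMap.injective_iff_surjective.1 h1⟩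
  have key := mem_gen_iff (b.conj (node T hT X i j).φ) ((A.F i).dualMap) ((q : Ω) ^ j)
    (fun x => by
      ext y
      obtain ⟨e, rfl⟩ := b.surjective x
      have h1 : (b.conj (node T hT X i j).φ) (b e) = b ((node T hT X i j).φ e) := by
        rw [LinearEquiv.conj_apply_apply, LinearEquiv.symm_apply_apply]
      have h2 : b ((node T hT X i j).φ e) = β (T.frob X i j e) := by
        rw [hβ', ← (hT.lin X i j).map_apply e]
        rfl
      have h3 : b e = β e := (hβ' e).symm
      rw [h1, h2, LinearMap.dualMap_apply, hβ, h3, LinearMap.smul_apply, smul_eq_mul]) hG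
  rw [← finrank_dual_gen, ← key, LinearMap.finrank_maxGenEigenspace_eq,
    LinearMap.finrank_maxGenEigenspace_eq, LinearEquiv.charpoly_conj]

theorem rank_of_good {Ω : Type} [Field Ω] [CharZero Ω] {A : Node Ω} (h : A.Good) :
    Module.Finite ℚ A.M ∧ finrank ℚ A.M = finrank Ω (Module.End.maxGenEigenspace A.φ 1) := by
  have hr : LinearMap.range A.lam = Module.End.maxGenEigenspace A.φ 1 := by
    ext e
    rw [Module.End.mem_maxGenEigenspace, LinearMap.mem_range]
    refine ⟨?_, ?_⟩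
    · rintro ⟨t, rfl⟩
      obtain ⟨k, hk⟩ := A.inG_lam t
      exact ⟨k, by rwa [one_smul]⟩
    · rintro ⟨k, hk⟩
      exact h.2 e ⟨k, by rwa [one_smul] at hk⟩
  have hfin : Module.Finite Ω (TensorProduct ℚ Ω A.M) :=
    Module.Finite.of_injective A.lam h.1
  have hfin' : Module.Finite ℚ A.M := by
    have h1 := Module.rank_lt_aleph0 Ω (TensorProduct ℚ Ω A.M)
    rw [Module.rank_baseChange] at h1
    rw [← Module.rank_lt_aleph0_iff]
    simpa using h1
  refine ⟨hfin', ?_⟩
  rw [← hr, ← Module.finrank_baseChange (R := Ω), LinearMap.finrank_range_of_inj h.1]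

/-- The rank of `M X i j` is the multiplicity of the eigenvalue `q ^ j` on `H^i_c`. -/
theorem rank_eq {Ω V : Type} [Field Ω] [CharZero Ω] {T : Homology Ω V} (hT : IsHomology T)
    {X : V} {q : ℕ} {A : CompactCoh Ω} (hA : IsCompactCoh T X q A) (hX : TB T X)
    (i : ℕ) (j : ℤ) :
    finrank ℚ (T.M X i j) = (A.F i).charpoly.rootMultiplicity ((q : Ω) ^ j) := by
  have h1 := rank_of_good ((tb_iff T hT X).1 hX i j)
  rw [← finrank_gen_eq hT hA i j, ← h1.2]
  rfl

theorem finite_M {Ω V : Type} [Field Ω] [CharZero Ω] {T : Homology Ω V} (hT : IsHomology T)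
    {X : V} (hX : TB T X) (i j : ℤ) : Module.Finite ℚ (T.M X i j) :=
  (rank_of_good ((tb_iff T hT X).1 hX i j)).1

theorem order_factor {Ω V : Type} [Field Ω] [CharZero Ω] {T : Homology Ω V} (hT : IsHomology T)
    {X : V} {q : ℕ} (hq : 1 < q) {A : CompactCoh Ω} (hA : IsCompactCoh T X q A) (hX : TB T X)
    (τ : Ω →+* ℂ) (i : ℕ) (j : ℤ) :
    MeromorphicAt (eulerFactor A τ q i) (j : ℂ) ∧
    meromorphicOrderAt (eulerFactor A τ q i) (j : ℂ) = (finrank ℚ (T.M X i j) : ℤ) := by
  have hc : (A.F i).charpoly ≠ 0 := (LinearMap.charpoly_monic _).ne_zero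
  have hne : (A.F i).charpoly.reverse.map τ ≠ 0 := by
    rw [Ne, Polynomial.map_eq_zero, reverse_eq_zero]
    exact hc
  have hq0 : (q : Ω) ≠ 0 := by exact_mod_cast (by omega : q ≠ 0)
  obtain ⟨h1, h2⟩ := order_exp _ hne q hq (j : ℂ)
  refine ⟨h1, ?_⟩
  have h3 : meromorphicOrderAt (eulerFactor A τ q i) (j : ℂ) =
    (((A.F i).charpoly.reverse.map τ).rootMultiplicity ((q : ℂ) ^ (-(j : ℂ))) : ℤ) := h2
  rw [h3, rank_eq hT hA hX i j]
  have h4 : (q : ℂ) ^ (-(j : ℂ)) = τ (((q : Ω) ^ j)⁻¹) := by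
    rw [map_inv₀, map_zpow₀, map_natCast, Complex.cpow_neg, Complex.cpow_intCast]
  rw [h4, ← Polynomial.eq_rootMultiplicity_map τ.injective,
    rootMultiplicity_reverse _ hc _ (zpow_ne_zero _ hq0)]

theorem M_neg {Ω V : Type} [Field Ω] [CharZero Ω] {T : Homology Ω V} {X : V} {q : ℕ}
    {A : CompactCoh Ω} (hA : IsCompactCoh T X q A) (hX : TB T X) {i : ℤ} (hi : i < 0) (j : ℤ)
    (x : T.M X i j) : x = 0 := by
  by_contra hx
  have h1 := (hX i j).2.1 1 (fun _ => x) (LinearIndependent.of_subsingleton 0 hx)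
  exact h1.ne_zero 0 (hA.neg i j hi _)

theorem finrank_zero_of {W : Type} [AddCommGroup W] [Module ℚ W] (h : ∀ x : W, x = 0) :
    finrank ℚ W = 0 := by
  have : Subsingleton W := ⟨fun a b => (h a).trans (h b).symm⟩
  exact finrank_zero_of_subsingleton

theorem finrank_big {Ω V : Type} [Field Ω] [CharZero Ω] {T : Homology Ω V} (hT : IsHomology T)
    {X : V} {q : ℕ} {A : CompactCoh Ω} (hA : IsCompactCoh T X q A) (hX : TB T X) {i : ℕ}
    (hi : A.N ≤ i) (j : ℤ) : finrank ℚ (T.M X i j) = 0 := by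
  rw [rank_eq hT hA hX i j, ← LinearMap.finrank_maxGenEigenspace_eq]
  have : Subsingleton (A.H i) := ⟨fun a b => (hA.vanish i hi a).trans (hA.vanish i hi b).symm⟩
  exact finrank_zero_of_subsingleton

theorem order_zeta {Ω V : Type} [Field Ω] [CharZero Ω] {T : Homology Ω V} (hT : IsHomology T)
    (hW : HasWeights T) {X : V} {q : ℕ} (hq : 1 < q) {A : CompactCoh Ω}
    (hA : IsCompactCoh T X q A) (hX : TB T X) (τ : Ω →+* ℂ) (j : ℤ) :
    {n : ℕ | finrank ℚ (T.M X (2 * j + n) j) ≠ 0}.Finite ∧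
    meromorphicOrderAt (zeta A τ q) (j : ℂ) =
      ((-∑ᶠ n : ℕ, (-1) ^ n * (finrank ℚ (T.M X (2 * j + n) j) : ℤ) : ℤ) : WithTop ℤ) := by
  -- the function on the degrees
  let f : ℤ → ℤ := fun i => (i.negOnePow : ℤ) * (finrank ℚ (T.M X i j) : ℤ)
  have f0 : ∀ i : ℤ, finrank ℚ (T.M X i j) = 0 → f i = 0 := fun i h => by
    simp only [f, h, Nat.cast_zero, mul_zero]
  have hneg : ∀ i : ℤ, i < 0 → finrank ℚ (T.M X i j) = 0 := fun i hi =>
    finrank_zero_of (M_neg hA hX hi j)
  have hlow : ∀ i : ℤ, i < 2 * j → finrank ℚ (T.M X i j) = 0 := fun i hi =>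
    finrank_zero_of (hW.motivic X i j hi)
  have hbig : ∀ i : ℤ, (A.N : ℤ) ≤ i → finrank ℚ (T.M X i j) = 0 := fun i hi => by
    lift i to ℕ using (Int.natCast_nonneg _).trans hi
    exact finrank_big hT hA hX (by exact_mod_cast hi) j
  have e1 : ∑ᶠ n : ℕ, (-1) ^ n * (finrank ℚ (T.M X (2 * j + n) j) : ℤ) = ∑ᶠ i : ℤ, f i := by
    have hinj : Function.Injective (fun n : ℕ => 2 * j + (n : ℤ)) := fun a b h => by
      simpa using h
    have h1 : ∑ᶠ n : ℕ, f (2 * j + n) = ∑ᶠ i ∈ Set.range (fun n : ℕ => 2 * j + (n : ℤ)), f i :=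
      (finsum_mem_range hinj).symm
    have h2 : ∑ᶠ i ∈ Set.range (fun n : ℕ => 2 * j + (n : ℤ)), f i = ∑ᶠ i : ℤ, f i := by
      refine (finsum_mem_inter_support_eq f _ Set.univ ?_).trans (finsum_mem_univ f)
      ext i
      simp only [Set.mem_inter_iff, Set.mem_range, Function.mem_support, Set.mem_univ, true_and,
        and_iff_right_iff_imp]
      intro hi
      have : 2 * j ≤ i := by
        by_contra h
        exact hi (f0 i (hlow i (by omega)))
      exact ⟨(i - 2 * j).toNat, by omega⟩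
    rw [← h2, ← h1]
    refine finsum_congr fun n => ?_
    simp only [f]
    congr 1
    rw [Int.negOnePow_add, Int.negOnePow_even _ (even_two_mul j), one_mul, Int.negOnePow_def]
    simp
  have e2 : ∑ᶠ i : ℤ, f i = ∑ i ∈ Finset.range A.N, f i := by
    have hinj : Function.Injective (fun n : ℕ => (n : ℤ)) := Nat.cast_injective
    have h1 : ∑ᶠ n : ℕ, f n = ∑ᶠ i ∈ Set.range (fun n : ℕ => (n : ℤ)), f i :=
      (finsum_mem_range hinj).symm
    have h2 : ∑ᶠ i ∈ Set.range (fun n : ℕ => (n : ℤ)), f i = ∑ᶠ i : ℤ, f i := by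
      refine (finsum_mem_inter_support_eq f _ Set.univ ?_).trans (finsum_mem_univ f)
      ext i
      simp only [Set.mem_inter_iff, Set.mem_range, Function.mem_support, Set.mem_univ, true_and,
        and_iff_right_iff_imp]
      intro hi
      have : 0 ≤ i := by
        by_contra h
        exact hi (f0 i (hneg i (by omega)))
      exact ⟨i.toNat, by omega⟩
    rw [← h2, ← h1]
    refine finsum_eq_sum_of_support_subset _ fun n hn => ?_
    rw [Finset.coe_range, Set.mem_Iio]
    by_contra h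
    exact hn (f0 n (hbig n (by omega)))
  refine ⟨?_, ?_⟩
  · refine (Set.finite_Iio ((A.N : ℤ) - 2 * j).toNat).subset fun n hn => ?_
    rw [Set.mem_Iio]
    by_contra h
    exact hn (hbig _ (by omega))
  · rw [e1, e2]
    have hm : ∀ i ∈ Finset.range A.N, MeromorphicAt (fun s => (eulerFactor A τ q i s) ^
        ((-1 : ℤ) ^ (i + 1))) (j : ℂ) := fun i _ =>
      ((order_factor hT hq hA hX τ i j).1).fun_zpow _
    have h1 : meromorphicOrderAt (zeta A τ q) (j : ℂ) = ∑ i ∈ Finset.range A.N,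
        meromorphicOrderAt (fun s => (eulerFactor A τ q i s) ^ ((-1 : ℤ) ^ (i + 1))) (j : ℂ) :=
      meromorphicOrderAt_fun_prod hm
    have h2 : ∀ i ∈ Finset.range A.N,
        meromorphicOrderAt (fun s => (eulerFactor A τ q i s) ^ ((-1 : ℤ) ^ (i + 1))) (j : ℂ) =
          ((-f i : ℤ) : WithTop ℤ) := fun i _ => by
      rw [fun_meromorphicOrderAt_zpow (order_factor hT hq hA hX τ i j).1,
        (order_factor hT hq hA hX τ i j).2, ← WithTop.coe_mul]
      congr 1
      have h3 : (((i : ℤ).negOnePow : ℤˣ) : ℤ) = (-1) ^ i := by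
        rw [Int.negOnePow_def, zpow_natCast]
        simp
      simp only [f, h3, pow_succ]
      ring
    rw [h1, Finset.sum_congr rfl h2, ← WithTop.coe_sum, Finset.sum_neg_distrib]

end

end Pool.Agent.Run7.h479.SO
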