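import Mathlib
import Pool.Agent.Run7.h479.SO.Zeta
import Pool.Agent.Run7.h479.SO.MoreDefs

/-!
# Function fields, `L`-functions and `K`-groups of schemes over finite fields
-/

set_option autoImplicit false

namespace Pool.Agent.Run7.h479.SO

open Pool.Agent.W495.FM Polynomial Module

noncomputable section

variable {Ω V : Type} [Field Ω] {T : Homology Ω V}

theorem isLin_zero {A B : Type} [AddCommGroup A] [Module Ω A] [AddCommGroup B] [Module Ω B]
    {f : A → B} (h : IsLin Ω f) : f 0 = 0 := by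
  obtain ⟨g, hg⟩ := h
  rw [hg, map_zero]

theorem isLin_sub {A B : Type} [AddCommGroup A] [Module Ω A] [AddCommGroup B] [Module Ω B]
    {f : A → B} (h : IsLin Ω f) (x y : A) : f (x - y) = f x - f y := by
  obtain ⟨g, hg⟩ := h
  rw [hg, hg, hg, map_sub]

/-- A vanishing on a smaller open subscheme persists. -/
theorem IsZero.of_res {X : V} {d : ℤ} {G : Opens T} (hG : IsOpens X d G) {a b : G.I} {n k : ℤ}
    (h : G.le a b) {e : T.E (G.U a) n k} (he : G.IsZero ((G.res h n k).g e)) : G.IsZero e := by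
  obtain ⟨c, hc, h1⟩ := he
  exact ⟨c, hG.trans h hc, by rw [← hG.res_trans h hc, h1]⟩

/-- Elements of the span of classes of cycles of dimension `k < d` vanish at the generic point. -/
theorem zero_of_span {X : V} {d : ℤ} {G : Opens T} (hG : IsOpens X d G) {a : G.I} {k : ℤ}
    (hk : k < d) (hT : IsHomology T) {e : T.E (G.U a) (2 * k) k}
    (he : e ∈ Submodule.span Ω (Set.range (T.reg (G.U a) (2 * k) k))) : G.IsZero e := by
  induction he using Submodule.span_induction with
  | mem x hx =>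
    obtain ⟨y, rfl⟩ := hx
    obtain ⟨b, h, hb⟩ := hG.cycle a k hk y
    refine ⟨b, h, ?_⟩
    rw [← (G.res h (2 * k) k).reg, hb]
    have := (hT.add (G.U b) (2 * k) k) 0 0
    simpa using this
  | zero => exact ⟨a, hG.refl a, isLin_zero (G.res _ _ _).lin⟩
  | add x y _ _ hx hy =>
    obtain ⟨b, h, hb⟩ := hx
    obtain ⟨c, h', hc⟩ := hy
    obtain ⟨e, h1, h2⟩ := hG.directed h h'
    refine ⟨e, hG.trans h h1, ?_⟩
    obtain ⟨g, hg⟩ := (G.res (hG.trans h h1) (2 * k) k).lin
    have e1 : g x = 0 := by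
      rw [← hg, ← hG.res_trans h h1, hb]
      exact isLin_zero (G.res _ _ _).lin
    have e2 : g y = 0 := by
      rw [← hg]
      have : (G.res (hG.trans h h1) (2 * k) k).g y = (G.res (hG.trans h' h2) (2 * k) k).g y := rfl
      rw [this, ← hG.res_trans h' h2, hc]
      exact isLin_zero (G.res _ _ _).lin
    rw [hg, map_add, e1, e2, add_zero]
  | smul c x _ hx =>
    obtain ⟨b, h, hb⟩ := hx
    refine ⟨b, h, ?_⟩
    obtain ⟨g, hg⟩ := (G.res h (2 * k) k).lin
    rw [hg] at hb ⊢
    rw [map_smul, hb, smul_zero]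

variable [CharZero Ω]

theorem generic_aux (hT : IsHomology T) (hW : HasWeights T) {X : V} {d : ℤ} {G : Opens T}
    (hG : IsOpens X d G) (hX : ∀ a i, IsOnto T (G.U a) i) {n k : ℤ} (h : n ≤ 2 * k)
    (h' : k < d ∨ n < 2 * k) {a : G.I} {e : T.E (G.U a) n k} (he : G.IsInvariant e) :
    G.IsZero e := by
  obtain ⟨b, hb, h1⟩ := he
  refine IsZero.of_res hG hb ?_
  have h2 : T.frob (G.U b) n k ((G.res hb n k).g e) = (G.res hb n k).g e := by
    rw [isLin_sub (G.res hb n k).lin, sub_eq_zero] at h1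
    rw [(G.res hb n k).frob, h1]
  rcases h.eq_or_lt with rfl | h3
  · exact zero_of_span hG (h'.resolve_right (lt_irrefl _)) hT ((hX b k).1 _ h2)
  · rw [hW.weights (G.U b) n k h3 _ h2]
    exact ⟨b, hG.refl b, isLin_zero (G.res _ _ _).lin⟩

/-- Invariant classes at the generic point vanish in `H^i(F(X), ℚ_ℓ(j))` if `i < j` or `i ≥ 2 j`,
`i > 0`. -/
theorem generic_zero (hT : IsHomology T) (hW : HasWeights T) {X : V} {S : V → Prop}
    (hX : Spread T S X) (hS : ∀ X, Spread T S X → ∀ i, IsOnto T X i) {d : ℤ} {G : Opens T}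
    (hG : IsOpens X d G) {i j : ℤ} (h : i < j ∨ (2 * j ≤ i ∧ 0 < i)) {a : G.I}
    {e : T.E (G.U a) (2 * d - i) (d - j)} (he : G.IsInvariant e) : G.IsZero e := by
  rcases h with h | ⟨h1, h2⟩
  · obtain ⟨b, hb, h1⟩ := he
    refine IsZero.of_res hG hb ?_
    have h2 : T.frob (G.U b) _ _ ((G.res hb _ _).g e) = (G.res hb _ _).g e := by
      rw [isLin_sub (G.res hb _ _).lin, sub_eq_zero] at h1
      rw [(G.res hb _ _).frob, h1]
    rw [hG.weights b i j h _ h2]
    exact ⟨b, hG.refl b, isLin_zero (G.res _ _ _).lin⟩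
  · refine generic_aux hT hW hG (fun a i => ?_) (by omega) (by omega) he
    obtain ⟨Z, hZ⟩ := hG.triple a
    exact hS _ (Spread.opened Z X _ hZ hX) i

/-- The order of the pole of the `L`-function is the rank. -/
theorem order_lFunction (hT : IsHomology T) {X : V} (hX : TB T X) {q : ℕ} (hq : 1 < q) {d : ℤ}
    {j : ℕ} {H : Type} [AddCommGroup H] [Module Ω H] [FiniteDimensional Ω H] {F : H →ₗ[Ω] H}
    (hF : IsCohomology T X q d j H F) (τ : Ω →+* ℂ) :
    meromorphicOrderAt (lFunction F τ q) (j : ℂ) =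
      ((-(finrank ℚ (T.M X (2 * (d - j)) (d - j)) : ℤ) : ℤ) : WithTop ℤ) := by
  obtain ⟨β, ⟨β', hβ'⟩, hb, hβ⟩ := hF
  have hq0 : (q : Ω) ≠ 0 := by exact_mod_cast (by omega : q ≠ 0)
  have hc : (q : Ω) ^ j ≠ 0 := pow_ne_zero _ hq0
  have hb' : Function.Bijective β' := by
    have : β = β' := funext hβ'
    rwa [this] at hb
  set A := node T hT X (2 * (d - j)) (d - j) with hA
  let b : A.E ≃ₗ[Ω] H := LinearEquiv.ofBijective β' hb'
  have e1 : F = (q : Ω) ^ j • b.conj A.φ := by
    ext y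
    obtain ⟨e, rfl⟩ := b.surjective y
    have h1 : (b.conj A.φ) (b e) = b (A.φ e) := by
      rw [LinearEquiv.conj_apply_apply, LinearEquiv.symm_apply_apply]
    have h2 : b (A.φ e) = β (T.frob X _ _ e) := by
      rw [hβ', ← (hT.lin X _ _).map_apply e]
      rfl
    have h3 : b e = β e := (hβ' e).symm
    rw [LinearMap.smul_apply, h1, h2, h3, hβ]
  have e2 : Module.End.maxGenEigenspace F ((q : Ω) ^ j) =
      Module.End.maxGenEigenspace (b.conj A.φ) 1 := by
    ext x
    rw [Module.End.mem_maxGenEigenspace, Module.End.mem_maxGenEigenspace]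
    refine exists_congr fun k => ?_
    have : (F - (q : Ω) ^ j • (1 : Module.End Ω H)) =
        (q : Ω) ^ j • (b.conj A.φ - (1 : Ω) • (1 : Module.End Ω H)) := by
      rw [smul_sub, ← e1, one_smul]
    rw [this, _root_.smul_pow, LinearMap.smul_apply, smul_eq_zero, or_iff_right (pow_ne_zero _ hc)]
  have e3 : F.charpoly.rootMultiplicity ((q : Ω) ^ j) =
      finrank ℚ (T.M X (2 * (d - j)) (d - j)) := by
    have h1 := rank_of_good ((tb_iff T hT X).1 hX (2 * (d - j)) (d - j))
    rw [← LinearMap.finrank_maxGenEigenspace_eq, e2, LinearMap.finrank_maxGenEigenspace_eq,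
      LinearEquiv.charpoly_conj, ← LinearMap.finrank_maxGenEigenspace_eq]
    exact h1.2.symm
  have hcp : F.charpoly ≠ 0 := (LinearMap.charpoly_monic _).ne_zero
  have hne : F.charpoly.reverse.map τ ≠ 0 := by
    rw [Ne, Polynomial.map_eq_zero, reverse_eq_zero]
    exact hcp
  obtain ⟨-, h2⟩ := order_exp _ hne q hq (j : ℂ)
  have h4 : (q : ℂ) ^ (-(j : ℂ)) = τ (((q : Ω) ^ j)⁻¹) := by
    rw [map_inv₀, map_pow, map_natCast, Complex.cpow_neg, Complex.cpow_natCast]
  have h5 := meromorphicOrderAt_inv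
    (f := fun s : ℂ => (F.charpoly.reverse.map τ).eval ((q : ℂ) ^ (-s))) (x := (j : ℂ))
  rw [h2, h4, ← Polynomial.eq_rootMultiplicity_map τ.injective,
    rootMultiplicity_reverse _ hcp _ hc, e3] at h5
  exact h5

/-- The rational `K`-groups are finite-dimensional. -/
theorem finite_K (hT : IsHomology T) {X : V} (hX : TB T X) {q : ℕ} {A : CompactCoh Ω}
    (hA : IsCompactCoh T X q A) (n : ℕ) (K : Type) [AddCommGroup K] [Module ℚ K]
    (hK : ∃ f : K →ₗ[ℚ] (∀ j : ℤ, T.M X (2 * j + n) j), Function.Injective f) :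
    FiniteDimensional ℚ K := by
  obtain ⟨f, hf⟩ := hK
  have hM : ∀ i j : ℤ, Module.Finite ℚ (T.M X i j) := finite_M hT hX
  let J : Finset ℤ := Finset.Icc (-(n : ℤ) - 1) (A.N : ℤ)
  have hzero : ∀ j : ℤ, j ∉ J → ∀ x : T.M X (2 * j + n) j, x = 0 := by
    intro j hj x
    have : 2 * j + n < 0 ∨ (A.N : ℤ) ≤ 2 * j + n := by
      by_contra h
      push Not at h
      exact hj (Finset.mem_Icc.2 ⟨by omega, by omega⟩)
    rcases this with h | h
    · exact M_neg hA hX h j x
    · have h1 := hM (2 * j + n) j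
      obtain ⟨m, hm⟩ : ∃ m : ℕ, 2 * j + n = (m : ℤ) := ⟨(2 * j + n).toNat, by omega⟩
      have h2 : finrank ℚ (T.M X (2 * j + n) j) = 0 := by
        rw [hm]
        exact finrank_big hT hA hX (by omega) j
      have h3 := finrank_zero_iff.1 h2
      exact Subsingleton.elim _ _
  let g : K →ₗ[ℚ] (∀ j : J, T.M X (2 * (j : ℤ) + n) j) :=
    LinearMap.pi fun j =>
      (LinearMap.proj (R := ℚ) (φ := fun j : ℤ => T.M X (2 * j + n) j) (j : ℤ)).comp f
  have hg : Function.Injective g := by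
    intro x y hxy
    refine hf (funext fun j => ?_)
    by_cases hj : j ∈ J
    · exact congrFun hxy ⟨j, hj⟩
    · rw [hzero j hj (f x j), hzero j hj (f y j)]
  exact Module.Finite.of_injective g hg

theorem finite_of_fg_torsion {A B : Type} [AddCommGroup A] [AddCommGroup B] (hA : AddGroup.FG A)
    (f : A →+ B) (hf : Function.Surjective f) (hB : ∀ b : B, ∃ m : ℕ, 0 < m ∧ m • b = 0) :
    Finite B := by
  have h1 : AddGroup.FG B := AddGroup.fg_of_surjective hf
  have h2 : Module.Finite ℤ B := Module.Finite.iff_addGroup_fg.2 h1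
  refine Module.finite_of_fg_torsion B fun b => ?_
  obtain ⟨m, hm, h⟩ := hB b
  exact ⟨⟨(m : ℤ), mem_nonZeroDivisors_of_ne_zero (by exact_mod_cast hm.ne')⟩, by
    rw [Submonoid.mk_smul, natCast_zsmul, h]⟩

end

end Pool.Agent.Run7.h479.SO
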