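import Mathlib
import Pool.Agent.Run7.h479.SO.Main

/-!
# Numbers of maximal angle rank have no isotropic relations
-/

set_option autoImplicit false
set_option linter.unusedSectionVars false

namespace Pool.Agent.Run7.h479.SO

open NumberField Module Polynomial Pool.Agent.Y137.MV

variable {κ : Type} [Fintype κ] {E : κ → Type} [∀ k, Field (E k)] [∀ k, NumberField (E k)]
  [∀ k, IsCMField (E k)] {π : ∀ k, E k}

/-- The value of the number `π k` at a complex embedding. -/
def vl (π : ∀ k, E k) (x : Σ k, (E k →+* ℂ)) : ℂ := x.2 (π x.1)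

/-- The conjugate embedding. -/
def bx (x : Σ k, (E k →+* ℂ)) : Σ k, (E k →+* ℂ) := ⟨x.1, ComplexEmbedding.conjugate x.2⟩

theorem vl_ne (hπ0 : ∀ k, π k ≠ 0) (x : Σ k, (E k →+* ℂ)) : vl π x ≠ 0 :=
  (_root_.map_ne_zero _).2 (hπ0 _)

theorem vl_mul_bx {q : κ → ℕ} (hw : ∀ k, π k * IsCMField.complexConj (E k) (π k) = (q k : E k))
    (x : Σ k, (E k →+* ℂ)) : vl π x * vl π (bx x) = q x.1 := by
  have h1 := congrArg x.2 (hw x.1)
  rw [map_mul, map_natCast] at h1
  rw [← h1]
  unfold vl bx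
  congr 1
  change ComplexEmbedding.conjugate x.2 (π x.1) = _
  rw [ComplexEmbedding.conjugate_coe_eq, IsCMField.complexEmbedding_complexConj]

/-- Numbers without relations have different values at different embeddings. -/
theorem vl_injective {p : ℕ} (hπ0 : ∀ k, π k ≠ 0)
    (h : ∀ (r : ℤ) (n : (Σ k, (E k →+* ℂ)) → ℤ), ∏ x, vl π x ^ n x = (p : ℂ) ^ r →
      ∀ x, n x = n (bx x)) : Function.Injective (vl π) := by
  classical
  intro x y hxy
  by_contra hne
  let n : (Σ k, (E k →+* ℂ)) → ℤ := fun z => (if z = x then 1 else 0) - (if z = y then 1 else 0)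
  have hrel : ∏ z, vl π z ^ n z = (p : ℂ) ^ (0 : ℤ) := by
    rw [zpow_zero]
    have h1 : ∀ z : Σ k, (E k →+* ℂ), vl π z ^ n z =
        (if z = x then vl π z else 1) * (if z = y then (vl π z)⁻¹ else 1) := by
      intro z
      have hz0 : vl π z ≠ 0 := vl_ne hπ0 z
      simp only [n]
      by_cases h2 : z = x
      · subst h2
        simp [hne]
      · by_cases h3 : z = y
        · subst h3
          simp [h2]
        · simp [h2, h3]
    rw [Finset.prod_congr rfl (fun z _ => h1 z), Finset.prod_mul_distrib,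
      Finset.prod_ite_eq' Finset.univ x (fun z => vl π z),
      Finset.prod_ite_eq' Finset.univ y (fun z => (vl π z)⁻¹),
      if_pos (Finset.mem_univ _), if_pos (Finset.mem_univ _), hxy, mul_inv_cancel₀ (vl_ne hπ0 y)]
  have h4 := h 0 n hrel x
  have hcn : ComplexEmbedding.conjugate x.2 ≠ x.2 := by
    intro h5
    have h6 : ComplexEmbedding.IsReal x.2 := h5
    exact IsTotallyComplex.complexEmbedding_not_isReal x.2 h6
  have hn1 : n x = 1 := by
    simp only [n, if_neg hne]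
    simp
  have hn2 : n (bx x) ≤ 0 := by
    have h5 : ¬ (bx x = x) := fun h6 =>
      hcn (eq_of_heq (Sigma.mk.inj (h6.trans (Sigma.eta x).symm)).2)
    simp only [n, if_neg h5]
    split_ifs <;> norm_num
  rw [hn1] at h4
  omega

/-- Powers of numbers with good slopes have good slopes. -/
theorem GoodSlopes.pow {p a : ℕ} [Fact p.Prime] {K : Type} [Field K] {x : K}
    (h : GoodSlopes p a x) {m : ℕ} (hm : 0 < m) : GoodSlopes p (a * m) (x ^ m) := by
  have hm' : (m : ℝ) ≠ 0 := Nat.cast_ne_zero.2 hm.ne'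
  have hc : ∀ (ν : PadicAlgCl p ≃+* ℂ) (φ : K →+* ℂ), cdev ν (a * m) (x ^ m) φ =
      m * cdev ν a x φ := by
    intro ν φ
    change 2 * (-Real.logb p ‖((ν.symm : ℂ →+* PadicAlgCl p).comp φ) (x ^ m)‖) - ((a * m : ℕ) : ℝ) =
      m * (2 * (-Real.logb p ‖((ν.symm : ℂ →+* PadicAlgCl p).comp φ) x‖) - (a : ℝ))
    rw [map_pow, norm_pow, Real.logb_pow]
    push_cast
    ring
  obtain ⟨A, O, hAO, ⟨ν₁, h₁⟩, ν₂, b, c, w, hb, hw, hk⟩ := h
  refine ⟨A, O, hAO, ⟨ν₁, ?_⟩, ν₂, m * b, m * c, w, mul_ne_zero hm' hb, fun φ hφ => ?_, hk⟩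
  · simp only [hc, ← Finset.mul_sum]
    exact mul_ne_zero hm' h₁
  · rw [hc, hw φ hφ]
    ring

/-- Weil numbers with good slopes, for several powers of `p`, have no relations. -/
theorem rel_of_good {p : ℕ} [Fact p.Prime] {a : κ → ℕ} (ha : ∀ k, 0 < a k)
    (hw : ∀ k, π k * IsCMField.complexConj (E k) (π k) = (p : E k) ^ a k)
    (hsep : Separated E) (hgood : ∀ k, GoodSlopes p (a k) (π k)) (r : ℤ)
    (n : (Σ k, (E k →+* ℂ)) → ℤ) (h : ∏ x, vl π x ^ n x = (p : ℂ) ^ r) (x : Σ k, (E k →+* ℂ)) :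
    n x = n (bx x) := by
  classical
  set M : ℕ := ∏ k, a k with hM
  have hM0 : 0 < M := Finset.prod_pos fun k _ => ha k
  have hm : ∀ k, a k * (M / a k) = M := fun k =>
    Nat.mul_div_cancel' (Finset.dvd_prod_of_mem a (Finset.mem_univ k))
  have hm0 : ∀ k, 0 < M / a k := fun k => by
    rw [Nat.pos_iff_ne_zero]
    intro h0
    have h1 := hm k
    rw [h0, mul_zero] at h1
    omega
  have hmax : MaximalAngleRank (p ^ M) (fun k => π k ^ (M / a k)) := by
    refine angle_of_good (F := E) (a := M) (fun k => ?_) hsep (fun k => ?_)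
    · rw [map_pow, ← mul_pow, hw k, ← pow_mul, hm k]
    · have h1 := (hgood k).pow (hm0 k)
      rwa [hm k] at h1
  have hrel : ∏ x : Σ k, (E k →+* ℂ), (x.2 ((fun k => π k ^ (M / a k)) x.1)) ^ (n x * a x.1) =
      (((p ^ M : ℕ) : ℂ)) ^ r := by
    have h1 : ∀ x : Σ k, (E k →+* ℂ), (x.2 ((fun k => π k ^ (M / a k)) x.1)) ^ (n x * a x.1) =
        (vl π x ^ n x) ^ M := by
      intro x
      change (x.2 (π x.1 ^ (M / a x.1))) ^ (n x * a x.1) = (x.2 (π x.1) ^ n x) ^ M
      rw [map_pow, ← zpow_natCast (x.2 (π x.1)) (M / a x.1), ← zpow_mul, ← zpow_natCast (x.2 (π x.1) ^ n x) M,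
        ← zpow_mul]
      congr 1
      have h2 : ((a x.1 : ℕ) : ℤ) * ((M / a x.1 : ℕ) : ℤ) = (M : ℤ) := by exact_mod_cast hm x.1
      rw [← h2]
      ring
    rw [Finset.prod_congr rfl (fun x _ => h1 x), Finset.prod_pow, h]
    push_cast
    rw [← zpow_natCast, ← zpow_natCast, ← zpow_mul, ← zpow_mul, mul_comm]
  have h2 := hmax r (fun x => n x * a x.1) hrel x.1 x.2
  have h3 : ((a x.1 : ℕ) : ℤ) ≠ 0 := by exact_mod_cast (ha x.1).ne'
  exact mul_right_cancel₀ h3 h2

/-- **No isotropic relations.** Let the multisets `R j`, `j ∈ S`, consist of the conjugates of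
numbers without relations. If the multisets `A j` together with the multisets of the `Q j / z`,
`z` in `A j`, are contained in the `R j`, and some power of the product of all the elements of all
the `A j` is a power of `p`, then the `A j` are empty. -/
theorem no_isotropic {p : ℕ} {q : κ → ℕ} (hq : ∀ k, q k ≠ 0)
    (hw : ∀ k, π k * IsCMField.complexConj (E k) (π k) = (q k : E k))
    (hmax : ∀ (r : ℤ) (n : (Σ k, (E k →+* ℂ)) → ℤ), ∏ x, vl π x ^ n x = (p : ℂ) ^ r →
      ∀ x, n x = n (bx x)) {J : Type} [DecidableEq J] (S : Finset J) (pl : κ → J)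
    (hpl : ∀ k, pl k ∈ S) (R A : J → Multiset ℂ) (Q : J → ℂ) (hQ : ∀ k, Q (pl k) = q k)
    (hR : ∀ j ∈ S, R j ≤
      ((Finset.univ.filter fun x : Σ k, (E k →+* ℂ) => pl x.1 = j).val.map (vl π)))
    (hA : ∀ j ∈ S, A j + (A j).map (fun z => Q j / z) ≤ R j) (N : ℕ) (hN : 0 < N) (r : ℤ)
    (hprod : (∏ j ∈ S, (A j).prod) ^ N = (p : ℂ) ^ r) : ∀ j ∈ S, A j = 0 := by
  classical
  have hπ0 : ∀ k, π k ≠ 0 := by
    intro k h0
    have h1 := hw k
    rw [h0, zero_mul] at h1
    exact Nat.cast_ne_zero.2 (hq k) h1.symm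
  have hinj := vl_injective hπ0 hmax
  let c : (Σ k, (E k →+* ℂ)) → ℕ := fun x => (A (pl x.1)).count (vl π x)
  have hmem : ∀ j ∈ S, ∀ z ∈ A j, ∃ x : Σ k, (E k →+* ℂ), pl x.1 = j ∧ vl π x = z := by
    intro j hj z hz
    have h1 : z ∈ R j := Multiset.mem_of_le (le_trans (Multiset.le_add_right _ _) (hA j hj)) hz
    have h2 := Multiset.mem_of_le (hR j hj) h1
    obtain ⟨x, hx, hxz⟩ := Multiset.mem_map.1 h2
    exact ⟨x, (Finset.mem_filter.1 (Finset.mem_def.2 hx)).2, hxz⟩
  have hprodj : ∀ j ∈ S, (A j).prod =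
      ∏ x ∈ Finset.univ.filter (fun x : Σ k, (E k →+* ℂ) => pl x.1 = j), vl π x ^ c x := by
    intro j hj
    rw [Finset.prod_multiset_count_of_subset (A j)
      ((Finset.univ.filter fun x : Σ k, (E k →+* ℂ) => pl x.1 = j).image (vl π)) (by
        intro z hz
        rw [Multiset.mem_toFinset] at hz
        obtain ⟨x, hx, hxz⟩ := hmem j hj z hz
        exact Finset.mem_image.2 ⟨x, Finset.mem_filter.2 ⟨Finset.mem_univ _, hx⟩, hxz⟩),
      Finset.prod_image (fun x _ y _ h => hinj h)]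
    refine Finset.prod_congr rfl fun x hx => ?_
    simp only [c]
    rw [(Finset.mem_filter.1 hx).2]
  have htot : ∏ j ∈ S, (A j).prod = ∏ x : Σ k, (E k →+* ℂ), vl π x ^ c x := by
    rw [Finset.prod_congr rfl hprodj]
    exact Finset.prod_fiberwise_of_maps_to (s := Finset.univ) (t := S)
      (g := fun x : Σ k, (E k →+* ℂ) => pl x.1) (fun x _ => hpl x.1) (fun x => vl π x ^ c x)
  have hrel : ∏ x : Σ k, (E k →+* ℂ), vl π x ^ ((N * c x : ℕ) : ℤ) = (p : ℂ) ^ r := by
    rw [← hprod, htot, ← Finset.prod_pow]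
    refine Finset.prod_congr rfl fun x _ => ?_
    rw [zpow_natCast, ← pow_mul, mul_comm N]
  have hsym : ∀ x : Σ k, (E k →+* ℂ), c x = c (bx x) := by
    intro x
    have h1 := hmax r (fun x => ((N * c x : ℕ) : ℤ)) hrel x
    have h2 : N * c x = N * c (bx x) := by exact_mod_cast h1
    exact Nat.eq_of_mul_eq_mul_left hN h2
  have hc0 : ∀ x : Σ k, (E k →+* ℂ), c x = 0 := by
    intro x
    have hj := hpl x.1
    have hq0 : Q (pl x.1) ≠ 0 := by
      rw [hQ]
      exact Nat.cast_ne_zero.2 (hq _)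
    have hfinj : Function.Injective (fun z : ℂ => Q (pl x.1) / z) := by
      intro z z' h
      have h1 : Q (pl x.1) * z⁻¹ = Q (pl x.1) * z'⁻¹ := h
      exact inv_injective (mul_left_cancel₀ hq0 h1)
    have h1 := Multiset.count_le_of_le (vl π x) (le_trans (hA _ hj) (hR _ hj))
    rw [Multiset.count_add] at h1
    have h2 : Multiset.count (vl π x) ((A (pl x.1)).map (fun z => Q (pl x.1) / z)) =
        c (bx x) := by
      have h3 : Q (pl x.1) / vl π (bx x) = vl π x := by
        rw [div_eq_iff (vl_ne hπ0 _), vl_mul_bx hw, hQ]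
      rw [← h3, Multiset.count_map_eq_count' _ _ hfinj]
      rfl
    have h3 : Multiset.count (vl π x)
        ((Finset.univ.filter fun y : Σ k, (E k →+* ℂ) => pl y.1 = pl x.1).val.map (vl π)) ≤ 1 :=
      Multiset.nodup_iff_count_le_one.1
        ((Multiset.nodup_map_iff_of_injective hinj).2 (Finset.nodup _)) _
    rw [h2, ← hsym] at h1
    change c x + c x ≤ _ at h1
    omega
  intro j hj
  rw [Multiset.eq_zero_iff_forall_notMem]
  intro z hz
  obtain ⟨x, hx, hxz⟩ := hmem j hj z hz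
  have h1 := hc0 x
  simp only [c] at h1
  rw [hx, hxz] at h1
  exact (Multiset.count_eq_zero.1 h1) hz

end Pool.Agent.Run7.h479.SO
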